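import Mathlib
import Pool.Agent.Helper40.Surf.Frame
set_option autoImplicit false

/-!
# A triangulated surface in 3-space with `6 N` vertices and `4 N ^ 2 + 4 N` triangles

Vertices: `p false r i` (side A), `p true r j` (side B), for `i, j < N` and two copies `r`, and the
poles `c k` for `k < 2 N`. Faces: `p false r i, p true r j, c k` for `k = i + j` and `k = i + j + 1`,
and the caps `p s false m, p s true m, c k` for `k = m` and `k = m + N`.
-/

namespace Pool.Agent.Helper65.Quad

open Finset Pool.Agent.Helper40.Surf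

/-- the vertices -/
inductive W
  | p (s r : Bool) (i : ℕ)
  | c (k : ℕ)
  deriving DecidableEq

/-- the faces of the first kind -/
def fc (r : Bool) (i j k : ℕ) : Finset W := {W.p false r i, W.p true r j, W.c k}

/-- the caps -/
def cap (s : Bool) (m k : ℕ) : Finset W := {W.p s false m, W.p s true m, W.c k}

/-- all faces -/
def TT (N : ℕ) : Finset (Finset W) :=
  ((univ : Finset Bool) ×ˢ range N ×ˢ range N ×ˢ range 2).image
      (fun q => fc q.1 q.2.1 q.2.2.1 (q.2.1 + q.2.2.1 + q.2.2.2)) ∪
    ((univ : Finset Bool) ×ˢ range N ×ˢ range 2).image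
      (fun q => cap q.1 q.2.1 (q.2.1 + N * q.2.2))

theorem mem_TT {N : ℕ} {t : Finset W} : t ∈ TT N ↔
    (∃ r i j k, i < N ∧ j < N ∧ (k = i + j ∨ k = i + j + 1) ∧ t = fc r i j k) ∨
    (∃ s m k, m < N ∧ (k = m ∨ k = m + N) ∧ t = cap s m k) := by
  simp only [TT, mem_union, mem_image, mem_product, mem_univ, mem_range, true_and, Prod.exists]
  constructor
  · rintro (⟨r, i, j, e, ⟨hi, hj, he⟩, rfl⟩ | ⟨s, m, e, ⟨hm, he⟩, rfl⟩)
    · left
      exact ⟨r, i, j, _, hi, hj, by omega, rfl⟩
    · right
      refine ⟨s, m, _, hm, ?_, rfl⟩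
      interval_cases e
      · left; simp
      · right; simp
  · rintro (⟨r, i, j, k, hi, hj, hk, rfl⟩ | ⟨s, m, k, hm, hk, rfl⟩)
    · left
      rcases hk with rfl | rfl
      · exact ⟨r, i, j, 0, ⟨hi, hj, by norm_num⟩, rfl⟩
      · exact ⟨r, i, j, 1, ⟨hi, hj, by norm_num⟩, rfl⟩
    · right
      rcases hk with hk | hk
      · exact ⟨s, m, 0, ⟨hm, by norm_num⟩, by simp [hk]⟩
      · exact ⟨s, m, 1, ⟨hm, by norm_num⟩, by simp [hk]⟩

/-- scale factor of the poles -/
noncomputable def th (N : ℕ) : ℝ := 20 * N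

/-- base of the powers -/
noncomputable def R (N : ℕ) : ℝ := 1000 * (N : ℝ) ^ 2

/-- factor of the copy -/
noncomputable def fac (r : Bool) : ℝ := if r then 4 else 1

/-- first homogeneous coordinate -/
noncomputable def uu (N : ℕ) : W → ℝ
  | .p false r i => 16 * N + 2 * i + (if r then 1 else 0)
  | .p true r i => 2 * i + (if r then 0 else 1)
  | .c _ => 0

/-- second homogeneous coordinate -/
noncomputable def vv (N : ℕ) : W → ℝ
  | .p false r i => fac r * R N ^ i
  | .p true _ _ => 0
  | .c _ => 1

/-- third homogeneous coordinate -/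
noncomputable def zz (N : ℕ) : W → ℝ
  | .p false _ _ => 0
  | .p true r i => - (fac r * R N ^ (2 * N - i))
  | .c k => - (th N * R N ^ (2 * N - k))

/-- fourth homogeneous coordinate -/
noncomputable def ww : W → ℝ
  | .p _ _ _ => 1
  | .c _ => 0

/-- the weight (the positive linear functional of the affine chart) -/
noncomputable def ll (N : ℕ) (x : W) : ℝ := ww x + vv N x

/-- the position in 3-space -/
noncomputable def pos (N : ℕ) (x : W) : E3 :=
  !₂[uu N x / ll N x, vv N x / ll N x, zz N x / ll N x]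

end Pool.Agent.Helper65.Quad
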