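import Mathlib
import Pool.Agent.Helper65.Quad.Defs
set_option autoImplicit false

/-!
# Counting and connectedness for the surface `TT N`
-/

namespace Pool.Agent.Helper65.Quad

open Finset Relation Pool.Agent.Helper40.Surf

theorem fc_mem {N r i j k} (hi : i < N) (hj : j < N) (hk : k = i + j ∨ k = i + j + 1) :
    fc r i j k ∈ TT N :=
  mem_TT.2 (Or.inl ⟨r, i, j, k, hi, hj, hk, rfl⟩)

theorem cap_mem {N s m k} (hm : m < N) (hk : k = m ∨ k = m + N) : cap s m k ∈ TT N :=
  mem_TT.2 (Or.inr ⟨s, m, k, hm, hk, rfl⟩)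

/-- there are faces -/
theorem nonempty_TT {N : ℕ} (hN : 1 ≤ N) : (TT N).Nonempty :=
  ⟨fc false 0 0 0, fc_mem (by omega) (by omega) (Or.inl rfl)⟩

theorem card_fc (r : Bool) (i j k : ℕ) : (fc r i j k).card = 3 := by
  unfold fc
  rw [card_insert_of_notMem, card_insert_of_notMem, card_singleton] <;> simp

theorem card_cap (s : Bool) (m k : ℕ) : (cap s m k).card = 3 := by
  unfold cap
  rw [card_insert_of_notMem, card_insert_of_notMem, card_singleton] <;> simp

/-- all faces are triangles -/
theorem card3_TT {N : ℕ} : ∀ t ∈ TT N, t.card = 3 := by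
  intro t ht
  rcases mem_TT.1 ht with ⟨r, i, j, k, -, -, -, rfl⟩ | ⟨s, m, k, -, -, rfl⟩
  · exact card_fc r i j k
  · exact card_cap s m k

theorem fc_inj {r r' : Bool} {i j k i' j' k' : ℕ} (h : fc r i j k = fc r' i' j' k') :
    r = r' ∧ i = i' ∧ j = j' ∧ k = k' := by
  have h1 : W.p false r i ∈ fc r' i' j' k' := by rw [← h]; simp [fc]
  have h2 : W.p true r j ∈ fc r' i' j' k' := by rw [← h]; simp [fc]
  have h3 : W.c k ∈ fc r' i' j' k' := by rw [← h]; simp [fc]
  simp [fc] at h1 h2 h3
  exact ⟨h1.1, h1.2, h2.2, h3⟩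

/-- the number of faces is at least `4 N ^ 2` -/
theorem card_TT {N : ℕ} : 4 * N ^ 2 ≤ (TT N).card := by
  have h1 : (((univ : Finset Bool) ×ˢ range N ×ˢ range N ×ˢ range 2).image
      (fun q => fc q.1 q.2.1 q.2.2.1 (q.2.1 + q.2.2.1 + q.2.2.2))).card = 4 * N ^ 2 := by
    rw [card_image_of_injective]
    · simp only [card_product, card_univ, Fintype.card_bool, card_range]
      ring
    · rintro ⟨r, i, j, e⟩ ⟨r', i', j', e'⟩ h
      obtain ⟨h1, h2, h3, h4⟩ := fc_inj h
      simp only at h1 h2 h3 h4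
      subst h1 h2 h3
      have : e = e' := by omega
      rw [this]
  rw [← h1]
  exact card_le_card subset_union_left

/-- at most `6 N` vertices -/
theorem verts_TT {N : ℕ} : ((TT N).biUnion id).card ≤ 6 * N := by
  have hsub : (TT N).biUnion id ⊆
      ((univ : Finset Bool) ×ˢ (univ : Finset Bool) ×ˢ range N).image
        (fun q => W.p q.1 q.2.1 q.2.2) ∪ (range (2 * N)).image W.c := by
    intro x hx
    obtain ⟨t, ht, hxt⟩ := mem_biUnion.1 hx
    simp only [id] at hxt
    simp only [mem_union, mem_image, mem_product, mem_univ, mem_range, true_and, Prod.exists]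
    rcases mem_TT.1 ht with ⟨r, i, j, k, hi, hj, hk, rfl⟩ | ⟨s, m, k, hm, hk, rfl⟩
    · simp only [fc, mem_insert, mem_singleton] at hxt
      rcases hxt with rfl | rfl | rfl
      · exact Or.inl ⟨false, r, i, hi, rfl⟩
      · exact Or.inl ⟨true, r, j, hj, rfl⟩
      · exact Or.inr ⟨k, by omega, rfl⟩
    · simp only [cap, mem_insert, mem_singleton] at hxt
      rcases hxt with rfl | rfl | rfl
      · exact Or.inl ⟨s, false, m, hm, rfl⟩
      · exact Or.inl ⟨s, true, m, hm, rfl⟩
      · exact Or.inr ⟨k, by omega, rfl⟩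
  refine (card_le_card hsub).trans ((card_union_le _ _).trans ?_)
  have h1 := card_image_le (s := (univ : Finset Bool) ×ˢ (univ : Finset Bool) ×ˢ range N)
    (f := fun q => W.p q.1 q.2.1 q.2.2)
  have h2 := card_image_le (s := range (2 * N)) (f := W.c)
  simp only [card_product, card_univ, Fintype.card_bool, card_range] at h1 h2
  omega

theorem ga_of_mem {V : Type*} [DecidableEq V] {T : Finset (Finset V)} {t : Finset V} {a b : V}
    (ht : t ∈ T) (ha : a ∈ t) (hb : b ∈ t) : GA T a b := ⟨t, ht, ha, hb⟩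

theorem ga_symm {V : Type*} [DecidableEq V] {T : Finset (Finset V)} {a b : V}
    (h : GA T a b) : GA T b a := by
  obtain ⟨t, ht, ha, hb⟩ := h
  exact ⟨t, ht, hb, ha⟩

/-- every vertex of the sides is joined to the base vertex -/
theorem p_conn {N : ℕ} (s r : Bool) {i : ℕ} (hi : i < N) :
    ReflTransGen (GA (TT N)) (W.p s r i) (W.p false false 0) := by
  have hN : 0 < N := by omega
  have h1 : GA (TT N) (W.p s r i) (W.c i) := by
    cases s
    · exact ga_of_mem (t := fc r i 0 i) (fc_mem hi hN (Or.inl rfl)) (by simp [fc]) (by simp [fc])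
    · exact ga_of_mem (t := fc r 0 i i) (fc_mem hN hi (Or.inl (by omega))) (by simp [fc])
        (by simp [fc])
  have h2 : GA (TT N) (W.c i) (W.p false false 0) :=
    ga_of_mem (t := fc false 0 i i) (fc_mem hN hi (Or.inl (by omega))) (by simp [fc])
      (by simp [fc])
  exact (ReflTransGen.single h1).tail h2

/-- every vertex is joined to the base vertex -/
theorem base_conn {N : ℕ} {a : W} (ha : GA (TT N) a a) :
    ReflTransGen (GA (TT N)) a (W.p false false 0) := by
  obtain ⟨t, ht, hat, -⟩ := ha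
  rcases mem_TT.1 ht with ⟨r, i, j, k, hi, hj, hk, rfl⟩ | ⟨s, m, k, hm, hk, rfl⟩
  · have h := ga_of_mem ht hat (show W.p false r i ∈ fc r i j k by simp [fc])
    exact ReflTransGen.head h (p_conn false r hi)
  · have h := ga_of_mem ht hat (show W.p s false m ∈ cap s m k by simp [cap])
    exact ReflTransGen.head h (p_conn s false hm)

/-- the surface is connected -/
theorem conn_TT {N : ℕ} : ∀ a b, GA (TT N) a a → GA (TT N) b b →
    ReflTransGen (GA (TT N)) a b := by
  intro a b ha hb
  refine (base_conn ha).trans ?_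
  have hs : ∀ x y, ReflTransGen (GA (TT N)) x y → ReflTransGen (GA (TT N)) y x := by
    intro x y h
    induction h with
    | refl => exact ReflTransGen.refl
    | tail _ h2 ih => exact ReflTransGen.head (ga_symm h2) ih
  exact hs _ _ (base_conn hb)

end Pool.Agent.Helper65.Quad
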