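import Mathlib
import Pool.Agent.Helper40.Surf.Frame
set_option autoImplicit false

/-!
# Embedded complexes from homogeneous coordinates
-/

namespace Pool.Agent.Helper65.Quad

open Finset Pool.Agent.Helper40.Surf

variable {V : Type*} [DecidableEq V]

/-- If the vertices have homogeneous coordinates with positive weight `l`, the three vertices of each
face are linearly independent, and two faces have the same coordinates at each common point, then the
faces form an embedded complex. -/
theorem isGeom_of_cone {T : Finset (Finset V)} {u v z l : V → ℝ}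
    (hl : ∀ t ∈ T, ∀ x ∈ t, 0 < l x)
    (hind : ∀ t ∈ T, ∀ a : V → ℝ, ∑ x ∈ t, a x * u x = 0 → ∑ x ∈ t, a x * v x = 0 →
      ∑ x ∈ t, a x * z x = 0 → ∑ x ∈ t, a x * l x = 0 → ∀ x ∈ t, a x = 0)
    (hsep : ∀ t ∈ T, ∀ t' ∈ T, ∀ a a' : V → ℝ, (∀ x, 0 ≤ a x) → (∀ x, 0 ≤ a' x) →
      (∀ x, x ∉ t → a x = 0) → (∀ x, x ∉ t' → a' x = 0) →
      ∑ x ∈ t, a x * u x = ∑ x ∈ t', a' x * u x → ∑ x ∈ t, a x * v x = ∑ x ∈ t', a' x * v x →
      ∑ x ∈ t, a x * z x = ∑ x ∈ t', a' x * z x → ∑ x ∈ t, a x * l x = ∑ x ∈ t', a' x * l x →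
      ∀ x, a x = a' x) :
    IsGeom (fun x => (!₂[u x / l x, v x / l x, z x / l x] : E3)) T := by
  classical
  set pos : V → E3 := fun x => !₂[u x / l x, v x / l x, z x / l x] with hpos
  have p0 : ∀ x, pos x 0 = u x / l x := fun x => rfl
  have p1 : ∀ x, pos x 1 = v x / l x := fun x => rfl
  have p2 : ∀ x, pos x 2 = z x / l x := fun x => rfl
  have ind : ∀ t ∈ T, AffineIndependent ℝ (fun x : t => pos x) := by
    intro t ht
    rw [affineIndependent_iff]
    intro s w h1 h2
    set w' : V → ℝ := fun x => if h : x ∈ t then (if (⟨x, h⟩ : t) ∈ s then w ⟨x, h⟩ else 0) else 0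
      with hw'
    have tr : ∀ f : V → ℝ, ∑ x ∈ t, w' x * f x = ∑ e ∈ s, w e * f e := by
      intro f
      rw [← sum_attach t (fun x => w' x * f x)]
      have e1 : ∀ e : t, w' e = if e ∈ s then w e else 0 := by
        intro e
        simp only [hw', e.2, dite_true]
      simp only [e1, ite_mul, zero_mul]
      rw [← sum_filter]
      apply sum_congr _ (fun _ _ => rfl)
      ext e
      simp
    have co : ∀ i : Fin 3, ∑ e ∈ s, w e * pos e i = 0 := by
      intro i
      have := congrArg (fun y : E3 => y i) h2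
      simpa using this
    have hz := hind t ht (fun x => w' x / l x) ?_ ?_ ?_ ?_
    · intro e he
      have h3 := hz e e.2
      have h4 : w' e = 0 := by
        rcases div_eq_zero_iff.mp h3 with h | h
        · exact h
        · exact absurd h (hl t ht e e.2).ne'
      simpa only [hw', e.2, dite_true, he, if_true] using h4
    · have : ∀ x, w' x / l x * u x = w' x * (u x / l x) := fun x => by ring
      simp only [this]
      rw [tr]
      exact co 0
    · have : ∀ x, w' x / l x * v x = w' x * (v x / l x) := fun x => by ring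
      simp only [this]
      rw [tr]
      exact co 1
    · have : ∀ x, w' x / l x * z x = w' x * (z x / l x) := fun x => by ring
      simp only [this]
      rw [tr]
      exact co 2
    · have : ∑ x ∈ t, w' x / l x * l x = ∑ x ∈ t, w' x * 1 :=
        sum_congr rfl fun x hx => by
          have := (hl t ht x hx).ne'
          field_simp
      rw [this, tr]
      simpa using h1
  refine ⟨ind, ?_⟩
  have wt : ∀ t ∈ T, ∀ P ∈ convexHull ℝ (pos '' (t : Set V)), ∃ a : V → ℝ, (∀ x, 0 ≤ a x) ∧
      (∀ x, x ∉ t → a x = 0) ∧ ∑ x ∈ t, a x * l x = 1 ∧ ∑ x ∈ t, (a x * l x) • pos x = P := by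
    intro t ht P hP
    rw [← coe_image] at hP
    obtain ⟨w, hw0, hw1, hw2⟩ := Finset.mem_convexHull'.mp hP
    have hinj := injOn_of_indep (ind t ht)
    rw [sum_image hinj] at hw1 hw2
    refine ⟨fun x => if x ∈ t then w (pos x) / l x else 0, ?_, ?_, ?_, ?_⟩
    · intro x
      by_cases hx : x ∈ t
      · simp only [hx, if_true]
        exact div_nonneg (hw0 _ (mem_image_of_mem _ hx)) (hl t ht x hx).le
      · simp [hx]
    · intro x hx
      simp [hx]
    · rw [← hw1]
      refine sum_congr rfl fun x hx => ?_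
      have := (hl t ht x hx).ne'
      simp only [hx, if_true]
      field_simp
    · rw [← hw2]
      refine sum_congr rfl fun x hx => ?_
      have := (hl t ht x hx).ne'
      simp only [hx, if_true]
      congr 1
      field_simp
  rintro t ht t' ht' P ⟨hP, hP'⟩
  obtain ⟨a, a1, a2, a3, a4⟩ := wt t ht P hP
  obtain ⟨b, b1, b2, b3, b4⟩ := wt t' ht' P hP'
  have co : ∀ (t : Finset V) (a : V → ℝ), ∑ x ∈ t, (a x * l x) • pos x = P →
      ∀ i : Fin 3, ∑ x ∈ t, a x * l x * pos x i = P i := by
    intro t a h i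
    have := congrArg (fun y : E3 => y i) h
    simpa using this
  have cu : ∀ t ∈ T, ∀ a : V → ℝ, ∑ x ∈ t, (a x * l x) • pos x = P →
      ∑ x ∈ t, a x * u x = P 0 ∧ ∑ x ∈ t, a x * v x = P 1 ∧ ∑ x ∈ t, a x * z x = P 2 := by
    intro t ht a h
    refine ⟨?_, ?_, ?_⟩
    · rw [← co t a h 0]
      refine sum_congr rfl fun x hx => ?_
      have := (hl t ht x hx).ne'
      rw [p0]; field_simp
    · rw [← co t a h 1]
      refine sum_congr rfl fun x hx => ?_
      have := (hl t ht x hx).ne'
      rw [p1]; field_simp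
    · rw [← co t a h 2]
      refine sum_congr rfl fun x hx => ?_
      have := (hl t ht x hx).ne'
      rw [p2]; field_simp
  obtain ⟨c1, c2, c3⟩ := cu t ht a a4
  obtain ⟨d1, d2, d3⟩ := cu t' ht' b b4
  have hab := hsep t ht t' ht' a b a1 b1 a2 b2 (c1.trans d1.symm) (c2.trans d2.symm)
    (c3.trans d3.symm) (a3.trans b3.symm)
  have hz : ∀ x ∈ t, x ∉ t ∩ t' → a x = 0 := by
    intro x hx hx'
    rw [hab x]
    exact b2 x fun h => hx' (mem_inter.mpr ⟨hx, h⟩)
  have e1 : ∑ x ∈ t ∩ t', a x * l x = 1 := by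
    rw [← a3]
    exact sum_subset inter_subset_left fun x hx hx' => by rw [hz x hx hx', zero_mul]
  have e2 : ∑ x ∈ t ∩ t', (a x * l x) • pos x = P := by
    rw [← a4]
    exact sum_subset inter_subset_left fun x hx hx' => by rw [hz x hx hx', zero_mul, zero_smul]
  rw [← e2]
  refine (convex_convexHull ℝ _).sum_mem ?_ e1 ?_
  · intro x hx
    exact mul_nonneg (a1 x) (hl t ht x (mem_inter.mp hx).1).le
  · intro x hx
    exact subset_convexHull ℝ _ ⟨x, by simpa using hx, rfl⟩

end Pool.Agent.Helper65.Quad
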