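import Mathlib
import Pool.Agent.Helper65.Quad.Defs
set_option autoImplicit false

/-!
# The inequalities between the heights
-/

namespace Pool.Agent.Helper65.Quad

open Finset Pool.Agent.Helper40.Surf

variable {N : ℕ}

theorem hNR (hN : 1 ≤ N) : (1 : ℝ) ≤ N := by exact_mod_cast hN

theorem R_ge (hN : 1 ≤ N) : 1000 ≤ R N := by
  have := hNR hN
  unfold R
  nlinarith

theorem R_pos (hN : 1 ≤ N) : 0 < R N := by linarith [R_ge hN]

theorem th_pos (hN : 1 ≤ N) : 0 < th N := by
  have := hNR hN
  unfold th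
  linarith

theorem fac_pos (r : Bool) : 0 < fac r := by cases r <;> norm_num [fac]
theorem fac_le (r : Bool) : fac r ≤ 4 := by cases r <;> norm_num [fac]
theorem fac_ge (r : Bool) : 1 ≤ fac r := by cases r <;> norm_num [fac]

/-- the slope of the pole `c k` -/
noncomputable def g (N k : ℕ) : ℝ := th N * R N ^ (2 * N - k)

theorem g_pos (hN : 1 ≤ N) (k : ℕ) : 0 < g N k :=
  mul_pos (th_pos hN) (pow_pos (R_pos hN) _)

theorem g_anti (hN : 1 ≤ N) {k k' : ℕ} (h : k ≤ k') : g N k' ≤ g N k := by
  unfold g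
  have h1 : R N ^ (2 * N - k') ≤ R N ^ (2 * N - k) :=
    pow_le_pow_right₀ (by linarith [R_ge hN]) (by omega)
  exact mul_le_mul_of_nonneg_left h1 (th_pos hN).le

theorem g_inj (hN : 1 ≤ N) {k k' : ℕ} (hk : k ≤ 2 * N) (hk' : k' ≤ 2 * N)
    (h : g N k = g N k') : k = k' := by
  unfold g at h
  have h1 := mul_left_cancel₀ (th_pos hN).ne' h
  have h2 := (pow_right_strictMono₀ (by linarith [R_ge hN] : 1 < R N)).injective h1
  omega

/-- the height in the view from a pole with slope `s` -/
noncomputable def H (N : ℕ) (s : ℝ) (x : W) : ℝ := s * vv N x + zz N x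

/-- the height difference to the line through `x'` and `y'` -/
noncomputable def Ph (N : ℕ) (s : ℝ) (x' y' x : W) : ℝ :=
  (uu N x - uu N y') * H N s x' + (uu N x' - uu N x) * H N s y' -
    (uu N x' - uu N y') * H N s x

theorem growA (hN : 1 ≤ N) {r s : Bool} {i i' : ℕ}
    (h : uu N (.p false s i) < uu N (.p false r i')) :
    4 * vv N (.p false s i) ≤ vv N (.p false r i') := by
  simp only [uu] at h
  simp only [vv]
  have hR := R_ge hN
  have hi : i ≤ i' := by
    by_contra hc
    have : (i' : ℝ) + 1 ≤ i := by exact_mod_cast (by omega : i' + 1 ≤ i)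
    have h1 : (if s then (1 : ℝ) else 0) ≥ 0 := by split_ifs <;> norm_num
    have h2 : (if r then (1 : ℝ) else 0) ≤ 1 := by split_ifs <;> norm_num
    linarith
  rcases hi.lt_or_eq with hi | rfl
  · have h1 : R N ^ (i + 1) ≤ R N ^ i' := pow_le_pow_right₀ (by linarith) (by omega)
    rw [pow_succ] at h1
    have h2 : 0 < R N ^ i := pow_pos (by linarith) _
    have h3 := fac_le s
    have h4 := fac_ge r
    have h5 : 4 * (fac s * R N ^ i) ≤ 16 * R N ^ i := by nlinarith
    have h6 : R N ^ i' ≤ fac r * R N ^ i' := by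
      have : 0 < R N ^ i' := pow_pos (by linarith) _
      nlinarith
    nlinarith
  · cases s <;> cases r <;> simp [fac] at h ⊢ <;> linarith

theorem growB (hN : 1 ≤ N) {r s : Bool} {j j' : ℕ} (hj : j < N)
    (h : uu N (.p true r j') < uu N (.p true s j)) :
    zz N (.p true r j') ≤ 4 * zz N (.p true s j) := by
  simp only [uu] at h
  simp only [zz]
  have hR := R_ge hN
  have hi : j' ≤ j := by
    by_contra hc
    have : (j : ℝ) + 1 ≤ j' := by exact_mod_cast (by omega : j + 1 ≤ j')
    have h1 : (if r then (0 : ℝ) else 1) ≥ 0 := by split_ifs <;> norm_num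
    have h2 : (if s then (0 : ℝ) else 1) ≤ 1 := by split_ifs <;> norm_num
    linarith
  rcases hi.lt_or_eq with hi | rfl
  · have h1 : R N ^ ((2 * N - j) + 1) ≤ R N ^ (2 * N - j') :=
      pow_le_pow_right₀ (by linarith) (by omega)
    rw [pow_succ] at h1
    have h2 : 0 < R N ^ (2 * N - j) := pow_pos (by linarith) _
    have h3 := fac_le s
    have h4 := fac_ge r
    have h5 : 4 * (fac s * R N ^ (2 * N - j)) ≤ 16 * R N ^ (2 * N - j) := by nlinarith
    have h6 : R N ^ (2 * N - j') ≤ fac r * R N ^ (2 * N - j') := by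
      have : 0 < R N ^ (2 * N - j') := pow_pos (by linarith) _
      nlinarith
    nlinarith
  · cases s <;> cases r <;> simp [fac] at h ⊢ <;> linarith

theorem uA_lb (r : Bool) (i : ℕ) : 16 * (N : ℝ) ≤ uu N (.p false r i) := by
  simp only [uu]
  have h1 : (if r then (1 : ℝ) else 0) ≥ 0 := by split_ifs <;> norm_num
  have : (0 : ℝ) ≤ i := Nat.cast_nonneg _
  linarith

theorem uA_ub (r : Bool) {i : ℕ} (hi : i < N) : uu N (.p false r i) ≤ 18 * (N : ℝ) := by
  simp only [uu]
  have h1 : (if r then (1 : ℝ) else 0) ≤ 1 := by split_ifs <;> norm_num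
  have : (i : ℝ) + 1 ≤ N := by exact_mod_cast (by omega : i + 1 ≤ N)
  linarith

theorem uB_lb (r : Bool) (i : ℕ) : 0 ≤ uu N (.p true r i) := by
  simp only [uu]
  have h1 : (if r then (0 : ℝ) else 1) ≥ 0 := by split_ifs <;> norm_num
  have : (0 : ℝ) ≤ i := Nat.cast_nonneg _
  linarith

theorem uB_ub (r : Bool) {i : ℕ} (hi : i < N) : uu N (.p true r i) ≤ 2 * (N : ℝ) := by
  simp only [uu]
  have h1 : (if r then (0 : ℝ) else 1) ≤ 1 := by split_ifs <;> norm_num
  have : (i : ℝ) + 1 ≤ N := by exact_mod_cast (by omega : i + 1 ≤ N)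
  linarith

theorem uA_cast (r : Bool) (i : ℕ) :
    uu N (.p false r i) = ((16 * N + 2 * i + (if r then 1 else 0) : ℕ) : ℝ) := by
  cases r <;> simp [uu]

theorem uB_cast (r : Bool) (i : ℕ) :
    uu N (.p true r i) = ((2 * i + (if r then 0 else 1) : ℕ) : ℝ) := by
  cases r <;> simp [uu]

/-- the first coordinates are integers -/
theorem u_step {q r s : Bool} {i i' : ℕ}
    (h : uu N (.p q s i) < uu N (.p q r i')) :
    uu N (.p q s i) + 1 ≤ uu N (.p q r i') := by
  cases q
  · rw [uA_cast, uA_cast] at h ⊢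
    have h1 : 16 * N + 2 * i + (if s then 1 else 0) < 16 * N + 2 * i' + (if r then 1 else 0) := by
      exact_mod_cast h
    exact_mod_cast h1
  · rw [uB_cast, uB_cast] at h ⊢
    have h1 : 2 * i + (if s then 0 else 1) < 2 * i' + (if r then 0 else 1) := by
      exact_mod_cast h
    exact_mod_cast h1

theorem u_inj {q r s : Bool} {i i' : ℕ}
    (h : uu N (.p q s i) = uu N (.p q r i')) : W.p q s i = W.p q r i' := by
  cases q
  · rw [uA_cast, uA_cast] at h
    have h1 : 16 * N + 2 * i + (if s then 1 else 0) = 16 * N + 2 * i' + (if r then 1 else 0) := by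
      exact_mod_cast h
    cases s <;> cases r <;> simp at h1 ⊢ <;> omega
  · rw [uB_cast, uB_cast] at h
    have h1 : 2 * i + (if s then 0 else 1) = 2 * i' + (if r then 0 else 1) := by
      exact_mod_cast h
    cases s <;> cases r <;> simp at h1 ⊢ <;> omega

/-- the product of the growth at the outer edge -/
theorem H_outer (hN : 1 ≤ N) (r : Bool) {i j k : ℕ} (hj : j < N) (hk : k ≤ 2 * N)
    (h : k ≤ i + j) :
    th N * (- zz N (.p true r j)) ≤ H N (g N k) (.p false r i) := by
  simp only [H, vv, zz, g]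
  have h1 : R N ^ (2 * N - j) ≤ R N ^ ((2 * N - k) + i) :=
    pow_le_pow_right₀ (by linarith [R_ge hN]) (by omega)
  rw [pow_add] at h1
  have h2 := mul_pos (th_pos hN) (fac_pos r)
  nlinarith

theorem H_outer' (hN : 1 ≤ N) (r : Bool) {i j k : ℕ} (hj : j < N) (hi : i < N)
    (hk : k ≤ 2 * N) (h : i + j + 1 ≤ k) :
    R N * H N (g N k) (.p false r i) ≤ th N * (- zz N (.p true r j)) := by
  simp only [H, vv, zz, g]
  have h1 : R N ^ ((2 * N - k) + i + 1) ≤ R N ^ (2 * N - j) :=
    pow_le_pow_right₀ (by linarith [R_ge hN]) (by omega)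
  rw [pow_succ, pow_add] at h1
  have h2 := mul_pos (th_pos hN) (fac_pos r)
  nlinarith

theorem thR (hN : 1 ≤ N) : 18 * (N : ℝ) * th N ≤ R N / 2 := by
  have := hNR hN
  unfold th R
  nlinarith

theorem etaPos (hN : 1 ≤ N) (r : Bool) (j : ℕ) : 0 < - zz N (.p true r j) := by
  simp only [zz, neg_neg]
  exact mul_pos (fac_pos r) (pow_pos (R_pos hN) _)

theorem HB (s : ℝ) (r : Bool) (j : ℕ) : H N s (.p true r j) = zz N (.p true r j) := by
  simp [H, vv]

theorem HA (s : ℝ) (r : Bool) (i : ℕ) : H N s (.p false r i) = s * vv N (.p false r i) := by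
  simp [H, zz]

theorem vA_pos (hN : 1 ≤ N) (r : Bool) (i : ℕ) : 0 < vv N (.p false r i) := by
  simp only [vv]
  exact mul_pos (fac_pos r) (pow_pos (R_pos hN) _)

/-- inner vertex on side A, low pole: the line of the outer edge is above -/
theorem P1pos (hN : 1 ≤ N) {r s : Bool} {i j i' k : ℕ} (hi : i < N) (hj : j < N)
    (hk : k ≤ 2 * N) (h : uu N (.p false s i') < uu N (.p false r i)) (hkm : k ≤ i + j) :
    0 < Ph N (g N k) (.p false r i) (.p true r j) (.p false s i') := by
  have h1 := H_outer hN r (i := i) hj hk hkm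
  have h2 := growA hN h
  have h3 := etaPos hN r j
  have h4 := hNR hN
  have h5 := uA_lb (N := N) s i'
  have h6 := uA_ub (N := N) r hi
  have h7 := uB_lb (N := N) r j
  have h8 := uB_ub (N := N) r hj
  have hg := g_pos hN k
  rw [Ph, HB]
  rw [HA] at h1
  rw [HA, HA]
  set U := uu N (.p false s i')
  set X := uu N (.p false r i)
  set Z := uu N (.p true r j)
  set v := vv N (.p false r i)
  set v' := vv N (.p false s i')
  set e := zz N (.p true r j)
  have hv : 0 < g N k * v := mul_pos hg (vA_pos hN r i)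
  have a1 : g N k * v' ≤ g N k * v / 4 := by nlinarith
  have a2 : (X - Z) * (g N k * v') ≤ (18 * N) * (g N k * v / 4) := by
    apply mul_le_mul _ a1 (mul_nonneg hg.le (vA_pos hN s i').le) (by linarith)
    linarith
  have a3 : (14 * N) * (g N k * v) ≤ (U - Z) * (g N k * v) :=
    mul_le_mul_of_nonneg_right (by linarith) hv.le
  have a4 : (X - U) * (- e) ≤ (2 * N) * (- e) :=
    mul_le_mul_of_nonneg_right (by linarith) h3.le
  have a5 : (20 : ℝ) * N * (- e) ≤ g N k * v := by
    have : th N = 20 * N := rfl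
    rw [this] at h1
    exact h1
  nlinarith

/-- inner vertex on side A, high pole: the line of the outer edge is below -/
theorem P1neg (hN : 1 ≤ N) {r s : Bool} {i j i' k : ℕ} (hi : i < N) (hj : j < N)
    (hk : k ≤ 2 * N) (h : uu N (.p false s i') < uu N (.p false r i)) (hkm : i + j + 1 ≤ k) :
    Ph N (g N k) (.p false r i) (.p true r j) (.p false s i') < 0 := by
  have h1 := H_outer' hN r hj hi hk hkm
  have h3 := etaPos hN r j
  have h4 := hNR hN
  have h5 := uA_lb (N := N) s i'
  have h6 := uA_ub (N := N) r hi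
  have h7 := uB_lb (N := N) r j
  have h8 := uB_ub (N := N) r hj
  have h9 := u_step h
  have hg := g_pos hN k
  have hR := R_pos hN
  have ht := thR hN
  rw [Ph, HB]
  rw [HA] at h1
  rw [HA, HA]
  set U := uu N (.p false s i')
  set X := uu N (.p false r i)
  set Z := uu N (.p true r j)
  set v := vv N (.p false r i)
  set v' := vv N (.p false s i')
  set e := zz N (.p true r j)
  have hv : 0 < g N k * v := mul_pos hg (vA_pos hN r i)
  have hv' : 0 < g N k * v' := mul_pos hg (vA_pos hN s i')
  have a1 : (U - Z) * (g N k * v) ≤ (18 * N) * (g N k * v) :=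
    mul_le_mul_of_nonneg_right (by linarith) hv.le
  have a2 : 0 ≤ (X - Z) * (g N k * v') := mul_nonneg (by linarith) hv'.le
  have a3 : 1 * (- e) ≤ (X - U) * (- e) :=
    mul_le_mul_of_nonneg_right (by linarith) h3.le
  have a4 : R N * ((18 * N) * (g N k * v)) ≤ R N * (- e / 2) := by
    calc R N * ((18 * N) * (g N k * v)) = (18 * N) * (R N * (g N k * v)) := by ring
      _ ≤ (18 * N) * (th N * (- e)) := mul_le_mul_of_nonneg_left h1 (by linarith)
      _ = (18 * N * th N) * (- e) := by ring
      _ ≤ (R N / 2) * (- e) := mul_le_mul_of_nonneg_right ht h3.le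
      _ = R N * (- e / 2) := by ring
  have a5 := le_of_mul_le_mul_left a4 hR
  nlinarith

/-- inner vertex on side B, low pole -/
theorem P2pos (hN : 1 ≤ N) {r s : Bool} {i j j' k : ℕ} (hi : i < N) (hj : j < N) (hj' : j' < N)
    (hk : k ≤ 2 * N) (h : uu N (.p true r j) < uu N (.p true s j')) (hkm : k ≤ i + j) :
    0 < Ph N (g N k) (.p false r i) (.p true r j) (.p true s j') := by
  have h1 := H_outer hN r (i := i) hj hk hkm
  have h3 := etaPos hN r j
  have h3' := etaPos hN s j'
  have h4 := hNR hN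
  have h5 := uA_lb (N := N) r i
  have h6 := uA_ub (N := N) r hi
  have h7 := uB_lb (N := N) s j'
  have h8 := uB_ub (N := N) s hj'
  have h9 := u_step h
  have h10 := uB_lb (N := N) r j
  have hg := g_pos hN k
  rw [Ph, HB, HB]
  rw [HA] at h1
  rw [HA]
  set U := uu N (.p true s j')
  set X := uu N (.p false r i)
  set Z := uu N (.p true r j)
  set v := vv N (.p false r i)
  set e' := zz N (.p true s j')
  set e := zz N (.p true r j)
  have hv : 0 < g N k * v := mul_pos hg (vA_pos hN r i)
  have a1 : 1 * (g N k * v) ≤ (U - Z) * (g N k * v) :=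
    mul_le_mul_of_nonneg_right (by linarith) hv.le
  have a2 : 0 ≤ (X - Z) * (- e') := mul_nonneg (by linarith) h3'.le
  have a4 : (X - U) * (- e) ≤ (18 * N) * (- e) :=
    mul_le_mul_of_nonneg_right (by linarith) h3.le
  have a5 : (20 : ℝ) * N * (- e) ≤ g N k * v := by
    have : th N = 20 * N := rfl
    rw [this] at h1
    exact h1
  nlinarith

/-- inner vertex on side B, high pole -/
theorem P2neg (hN : 1 ≤ N) {r s : Bool} {i j j' k : ℕ} (hi : i < N) (hj : j < N) (hj' : j' < N)
    (hk : k ≤ 2 * N) (h : uu N (.p true r j) < uu N (.p true s j')) (hkm : i + j + 1 ≤ k) :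
    Ph N (g N k) (.p false r i) (.p true r j) (.p true s j') < 0 := by
  have h1 := H_outer' hN r hj hi hk hkm
  have h2 := growB hN hj' h
  have h3 := etaPos hN r j
  have h3' := etaPos hN s j'
  have h4 := hNR hN
  have h5 := uA_lb (N := N) r i
  have h6 := uA_ub (N := N) r hi
  have h7 := uB_lb (N := N) s j'
  have h8 := uB_ub (N := N) s hj'
  have h10 := uB_lb (N := N) r j
  have hg := g_pos hN k
  have hR := R_pos hN
  have ht := thR hN
  rw [Ph, HB, HB]
  rw [HA] at h1
  rw [HA]
  set U := uu N (.p true s j')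
  set X := uu N (.p false r i)
  set Z := uu N (.p true r j)
  set v := vv N (.p false r i)
  set e' := zz N (.p true s j')
  set e := zz N (.p true r j)
  have hv : 0 < g N k * v := mul_pos hg (vA_pos hN r i)
  have a1 : (U - Z) * (g N k * v) ≤ (2 * N) * (g N k * v) :=
    mul_le_mul_of_nonneg_right (by linarith) hv.le
  have a2 : (X - Z) * (- e') ≤ (18 * N) * (- e / 4) := by
    apply mul_le_mul (by linarith) (by linarith) h3'.le (by linarith)
  have a3 : (14 * N) * (- e) ≤ (X - U) * (- e) :=
    mul_le_mul_of_nonneg_right (by linarith) h3.le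
  have a4 : R N * ((18 * N) * (g N k * v)) ≤ R N * (- e / 2) := by
    calc R N * ((18 * N) * (g N k * v)) = (18 * N) * (R N * (g N k * v)) := by ring
      _ ≤ (18 * N) * (th N * (- e)) := mul_le_mul_of_nonneg_left h1 (by linarith)
      _ = (18 * N * th N) * (- e) := by ring
      _ ≤ (R N / 2) * (- e) := mul_le_mul_of_nonneg_right ht h3.le
      _ = R N * (- e / 2) := by ring
  have a5 := le_of_mul_le_mul_left a4 hR
  nlinarith

end Pool.Agent.Helper65.Quad
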