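import Mathlib
import Pool.Agent.Helper65.Quad.Num
set_option autoImplicit false

/-!
# Two faces meet in a common face only
-/

namespace Pool.Agent.Helper65.Quad

open Finset Pool.Agent.Helper40.Surf

variable {N : ℕ}

/-- a common point of the cones over the faces `t` and `t'` -/
structure Sol (N : ℕ) (t t' : Finset W) (a a' : W → ℝ) : Prop where
  nn : ∀ x, 0 ≤ a x
  nn' : ∀ x, 0 ≤ a' x
  su : ∀ x, x ∉ t → a x = 0
  su' : ∀ x, x ∉ t' → a' x = 0
  hu : ∑ x ∈ t, a x * uu N x = ∑ x ∈ t', a' x * uu N x
  hv : ∑ x ∈ t, a x * vv N x = ∑ x ∈ t', a' x * vv N x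
  hz : ∑ x ∈ t, a x * zz N x = ∑ x ∈ t', a' x * zz N x
  hw : ∑ x ∈ t, a x * ww x = ∑ x ∈ t', a' x * ww x

theorem Sol.symm {t t' : Finset W} {a a' : W → ℝ} (S : Sol N t t' a a') : Sol N t' t a' a :=
  ⟨S.nn', S.nn, S.su', S.su, S.hu.symm, S.hv.symm, S.hz.symm, S.hw.symm⟩

/-- no pole -/
def Np (x : W) : Prop := ∃ s r i, x = W.p s r i

theorem Np.ne {x : W} (h : Np x) (k : ℕ) : x ≠ W.c k := by
  obtain ⟨s, r, i, rfl⟩ := h
  simp

theorem Np.ww {x : W} (h : Np x) : ww x = 1 := by
  obtain ⟨s, r, i, rfl⟩ := h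
  rfl

theorem np (s r : Bool) (i : ℕ) : Np (W.p s r i) := ⟨s, r, i, rfl⟩

theorem sum3 {P Q : W} (hP : Np P) (hQ : Np Q) (h : P ≠ Q) (k : ℕ) (f : W → ℝ) :
    ∑ x ∈ ({P, Q, W.c k} : Finset W), f x = f P + (f Q + f (W.c k)) := by
  rw [sum_insert (by simp [h, hP.ne k]), sum_insert (by simp [hQ.ne k]), sum_singleton]

/-- the equations of a common point -/
structure Eqs (N : ℕ) (P Q : W) (k : ℕ) (P' Q' : W) (k' : ℕ) (a a' : W → ℝ) : Prop where
  w : a P + a Q = a' P' + a' Q'
  u : a P * uu N P + a Q * uu N Q = a' P' * uu N P' + a' Q' * uu N Q'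
  v : a P * vv N P + a Q * vv N Q + a (W.c k) =
    a' P' * vv N P' + a' Q' * vv N Q' + a' (W.c k')
  z : a P * zz N P + a Q * zz N Q - a (W.c k) * g N k =
    a' P' * zz N P' + a' Q' * zz N Q' - a' (W.c k') * g N k'

theorem eqs {P Q P' Q' : W} {k k' : ℕ} (hP : Np P) (hQ : Np Q) (h : P ≠ Q) (hP' : Np P')
    (hQ' : Np Q') (h' : P' ≠ Q') {a a' : W → ℝ}
    (S : Sol N ({P, Q, W.c k} : Finset W) ({P', Q', W.c k'} : Finset W) a a') :
    Eqs N P Q k P' Q' k' a a' := by
  have h1 := S.hw
  have h2 := S.hu
  have h3 := S.hv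
  have h4 := S.hz
  rw [sum3 hP hQ h, sum3 hP' hQ' h'] at h1 h2 h3 h4
  rw [hP.ww, hQ.ww, hP'.ww, hQ'.ww] at h1
  have e1 : ∀ k, ww (W.c k) = 0 := fun _ => rfl
  have e2 : ∀ k, uu N (W.c k) = 0 := fun _ => rfl
  have e3 : ∀ k, vv N (W.c k) = 1 := fun _ => rfl
  have e4 : ∀ k, zz N (W.c k) = - g N k := fun _ => rfl
  rw [e1, e1] at h1
  rw [e2, e2] at h2
  rw [e3, e3] at h3
  rw [e4, e4] at h4
  exact ⟨by linarith, by linarith, by linarith, by linarith⟩

/-- the main identity -/
theorem Eqs.main {P Q P' Q' : W} {k k' : ℕ} {a a' : W → ℝ} (E : Eqs N P Q k P' Q' k' a a') :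
    a P * Ph N (g N k) P' Q' P + a Q * Ph N (g N k) P' Q' Q +
      a' (W.c k') * (g N k - g N k') * (uu N P' - uu N Q') = 0 := by
  obtain ⟨w, u, v, z⟩ := E
  simp only [Ph, H]
  linear_combination (g N k * vv N P' + zz N P') * (u - uu N Q' * w) +
    (g N k * vv N Q' + zz N Q') * (uu N P' * w - u) - (uu N P' - uu N Q') * (g N k * v + z)

/-- the second identity -/
theorem Eqs.snd {P Q P' Q' : W} {k k' : ℕ} {a a' : W → ℝ} (E : Eqs N P Q k P' Q' k' a a') :
    a P * ((uu N P' - uu N Q') * vv N P - (uu N P - uu N Q') * vv N P' -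
        (uu N P' - uu N P) * vv N Q') +
      a Q * ((uu N P' - uu N Q') * vv N Q - (uu N Q - uu N Q') * vv N P' -
        (uu N P' - uu N Q) * vv N Q') +
      (a (W.c k) - a' (W.c k')) * (uu N P' - uu N Q') = 0 := by
  obtain ⟨w, u, v, z⟩ := E
  linear_combination (uu N P' - uu N Q') * v - (u - uu N Q' * w) * vv N P' -
    (uu N P' * w - u) * vv N Q'

/-- a vertex in the range of the outer edge -/
def Inn (N : ℕ) (r : Bool) (i j : ℕ) (x : W) : Prop :=
  x = W.p false r i ∨ x = W.p true r j ∨
    (∃ s i', x = W.p false s i' ∧ uu N x < uu N (W.p false r i)) ∨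
    (∃ s j', j' < N ∧ x = W.p true s j' ∧ uu N (W.p true r j) < uu N x)

theorem Inn.np {r : Bool} {i j : ℕ} {x : W} (h : Inn N r i j x) : Np x := by
  rcases h with rfl | rfl | ⟨s, i', rfl, -⟩ | ⟨s, j', -, rfl, -⟩ <;> exact ⟨_, _, _, rfl⟩

theorem Ph_left (s : ℝ) (x' y' : W) : Ph N s x' y' x' = 0 := by
  simp only [Ph]; ring

theorem Ph_right (s : ℝ) (x' y' : W) : Ph N s x' y' y' = 0 := by
  simp only [Ph]; ring

theorem Inn.pos (hN : 1 ≤ N) {r : Bool} {i j k : ℕ} {x : W} (h : Inn N r i j x) (hi : i < N)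
    (hj : j < N) (hk : k ≤ 2 * N) (hkm : k ≤ i + j) :
    0 ≤ Ph N (g N k) (.p false r i) (.p true r j) x ∧
      (Ph N (g N k) (.p false r i) (.p true r j) x = 0 → x = W.p false r i ∨ x = W.p true r j) := by
  rcases h with rfl | rfl | ⟨s, i', rfl, h⟩ | ⟨s, j', hj', rfl, h⟩
  · rw [Ph_left]; simp
  · rw [Ph_right]; simp
  · have := P1pos hN hi hj hk h hkm
    exact ⟨this.le, fun h0 => absurd h0 this.ne'⟩
  · have := P2pos hN hi hj hj' hk h hkm
    exact ⟨this.le, fun h0 => absurd h0 this.ne'⟩

theorem Inn.neg (hN : 1 ≤ N) {r : Bool} {i j k : ℕ} {x : W} (h : Inn N r i j x) (hi : i < N)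
    (hj : j < N) (hk : k ≤ 2 * N) (hkm : i + j + 1 ≤ k) :
    Ph N (g N k) (.p false r i) (.p true r j) x ≤ 0 ∧
      (Ph N (g N k) (.p false r i) (.p true r j) x = 0 → x = W.p false r i ∨ x = W.p true r j) := by
  rcases h with rfl | rfl | ⟨s, i', rfl, h⟩ | ⟨s, j', hj', rfl, h⟩
  · rw [Ph_left]; simp
  · rw [Ph_right]; simp
  · have := P1neg hN hi hj hk h hkm
    exact ⟨this.le, fun h0 => absurd h0 this.ne⟩
  · have := P2neg hN hi hj hj' hk h hkm
    exact ⟨this.le, fun h0 => absurd h0 this.ne⟩

theorem uAB (hN : 1 ≤ N) (r s : Bool) {i j : ℕ} (hj : j < N) :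
    uu N (.p true s j) < uu N (.p false r i) := by
  have := hNR hN
  have h1 := uA_lb (N := N) r i
  have h2 := uB_ub (N := N) s hj
  linarith

theorem nested (hN : 1 ≤ N) {P Q : W} {r : Bool} {i j k k' : ℕ} (hP : Inn N r i j P)
    (hQ : Inn N r i j Q) (hPQ : P ≠ Q) (hi : i < N) (hj : j < N) (hk : k ≤ 2 * N)
    (hk' : k' = i + j ∨ k' = i + j + 1) {a a' : W → ℝ}
    (S : Sol N ({P, Q, W.c k} : Finset W) (fc r i j k') a a') :
    ∀ x, x ∉ fc r i j k' → a x = 0 := by
  have E := eqs hP.np hQ.np hPQ (np false r i) (np true r j) (by simp) S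
  have m := E.main
  have f := E.snd
  have hX := uAB hN r r (i := i) hj
  set X := uu N (.p false r i) with hXd
  set Z := uu N (.p true r j) with hZd
  have hD : 0 < X - Z := by linarith
  have key : (a P = 0 ∨ P = W.p false r i ∨ P = W.p true r j) ∧
      (a Q = 0 ∨ Q = W.p false r i ∨ Q = W.p true r j) ∧
      (a' (W.c k') = 0 ∨ g N k = g N k') := by
    rcases Nat.lt_or_ge (i + j) k with hc | hc
    · obtain ⟨p1, p2⟩ := hP.neg hN hi hj hk hc
      obtain ⟨q1, q2⟩ := hQ.neg hN hi hj hk hc
      have hg : g N k ≤ g N k' := g_anti hN (by omega)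
      have t1 : 0 ≤ a P * (- Ph N (g N k) (.p false r i) (.p true r j) P) :=
        mul_nonneg (S.nn P) (by linarith)
      have t2 : 0 ≤ a Q * (- Ph N (g N k) (.p false r i) (.p true r j) Q) :=
        mul_nonneg (S.nn Q) (by linarith)
      have t3 : 0 ≤ a' (W.c k') * (g N k' - g N k) * (X - Z) :=
        mul_nonneg (mul_nonneg (S.nn' _) (by linarith)) hD.le
      have u1 : a P * Ph N (g N k) (.p false r i) (.p true r j) P = 0 := by linarith
      have u2 : a Q * Ph N (g N k) (.p false r i) (.p true r j) Q = 0 := by linarith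
      have u3 : a' (W.c k') * (g N k' - g N k) * (X - Z) = 0 := by linarith
      refine ⟨?_, ?_, ?_⟩
      · rcases mul_eq_zero.mp u1 with h | h
        · exact Or.inl h
        · exact Or.inr (p2 h)
      · rcases mul_eq_zero.mp u2 with h | h
        · exact Or.inl h
        · exact Or.inr (q2 h)
      · rcases mul_eq_zero.mp u3 with h | h
        · rcases mul_eq_zero.mp h with h | h
          · exact Or.inl h
          · exact Or.inr (by linarith)
        · linarith
    · obtain ⟨p1, p2⟩ := hP.pos hN hi hj hk hc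
      obtain ⟨q1, q2⟩ := hQ.pos hN hi hj hk hc
      have hg : g N k' ≤ g N k := g_anti hN (by omega)
      have t1 := mul_nonneg (S.nn P) p1
      have t2 := mul_nonneg (S.nn Q) q1
      have t3 : 0 ≤ a' (W.c k') * (g N k - g N k') * (X - Z) :=
        mul_nonneg (mul_nonneg (S.nn' _) (by linarith)) hD.le
      have u1 : a P * Ph N (g N k) (.p false r i) (.p true r j) P = 0 := by linarith
      have u2 : a Q * Ph N (g N k) (.p false r i) (.p true r j) Q = 0 := by linarith
      have u3 : a' (W.c k') * (g N k - g N k') * (X - Z) = 0 := by linarith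
      refine ⟨?_, ?_, ?_⟩
      · rcases mul_eq_zero.mp u1 with h | h
        · exact Or.inl h
        · exact Or.inr (p2 h)
      · rcases mul_eq_zero.mp u2 with h | h
        · exact Or.inl h
        · exact Or.inr (q2 h)
      · rcases mul_eq_zero.mp u3 with h | h
        · rcases mul_eq_zero.mp h with h | h
          · exact Or.inl h
          · exact Or.inr (by linarith)
        · linarith
  obtain ⟨k1, k2, k3⟩ := key
  have f1 : a P * ((X - Z) * vv N P - (uu N P - Z) * vv N (.p false r i) -
        (X - uu N P) * vv N (.p true r j)) = 0 := by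
    rcases k1 with h | rfl | rfl
    · rw [h]; ring
    · rw [← hXd]; ring
    · rw [← hZd]; ring
  have f2 : a Q * ((X - Z) * vv N Q - (uu N Q - Z) * vv N (.p false r i) -
        (X - uu N Q) * vv N (.p true r j)) = 0 := by
    rcases k2 with h | rfl | rfl
    · rw [h]; ring
    · rw [← hXd]; ring
    · rw [← hZd]; ring
  rw [f1, f2] at f
  have f3 : a (W.c k) = a' (W.c k') := by
    have : (a (W.c k) - a' (W.c k')) * (X - Z) = 0 := by linarith
    rcases mul_eq_zero.mp this with h | h <;> linarith
  intro x hx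
  by_cases hxt : x ∈ ({P, Q, W.c k} : Finset W)
  · simp only [mem_insert, mem_singleton] at hxt
    rcases hxt with rfl | rfl | rfl
    · rcases k1 with h | rfl | rfl
      · exact h
      · exact absurd (by simp [fc]) hx
      · exact absurd (by simp [fc]) hx
    · rcases k2 with h | rfl | rfl
      · exact h
      · exact absurd (by simp [fc]) hx
      · exact absurd (by simp [fc]) hx
    · rw [f3]
      rcases k3 with h | h
      · exact h
      · have := g_inj hN hk (by omega) h
        subst this
        exact absurd (by simp [fc]) hx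
  · exact S.su x hxt

theorem crossing (hN : 1 ≤ N) {r r' : Bool} {i j k i' j' k' : ℕ} (hi : i < N) (hj : j < N)
    (hi' : i' < N) (hj' : j' < N) (hk : k = i + j ∨ k = i + j + 1)
    (hk' : k' = i' + j' ∨ k' = i' + j' + 1)
    (hx : uu N (.p false r i) < uu N (.p false r' i'))
    (hy : uu N (.p true r j) < uu N (.p true r' j')) {a a' : W → ℝ}
    (S : Sol N (fc r i j k) (fc r' i' j' k') a a') :
    ∀ x, x ∉ fc r' i' j' k' → a x = 0 := by
  have hm : i + j + 1 ≤ i' + j' := by
    rw [uA_cast, uA_cast] at hx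
    rw [uB_cast, uB_cast] at hy
    have h1 : 16 * N + 2 * i + (if r then 1 else 0) < 16 * N + 2 * i' + (if r' then 1 else 0) := by
      exact_mod_cast hx
    have h2 : 2 * j + (if r then 0 else 1) < 2 * j' + (if r' then 0 else 1) := by
      exact_mod_cast hy
    cases r <;> cases r' <;> simp at h1 h2 <;> omega
  have E := eqs (np false r i) (np true r j) (by simp) (np false r' i') (np true r' j')
    (by simp) S
  have F1 := P1pos hN (k := i + j + 1) hi' hj' (by omega) hx (by omega)
  have F2 := P2neg hN (k := i + j + 1) hi hj hj' (by omega) hy le_rfl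
  have g1 : g N (i + j + 1) ≤ g N k := g_anti hN (by omega)
  have g2 : g N k' ≤ g N (i + j + 1) := g_anti hN (by omega)
  have hXZ := uAB hN r r' (i := i) hj'
  obtain ⟨w, u, v, z⟩ := E
  have n1 := S.nn (.p false r i)
  have n2 := S.nn (.p true r j)
  have n3 := S.nn (.c k)
  have n1' := S.nn' (.p false r' i')
  have n2' := S.nn' (.p true r' j')
  have n3' := S.nn' (.c k')
  simp only [Ph, H] at F1 F2
  set X := uu N (.p false r i)
  set Z := uu N (.p true r j)
  set X' := uu N (.p false r' i')
  set Z' := uu N (.p true r' j')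
  set α := a (.p false r i)
  set β := a (.p true r j)
  set κ := a (.c k)
  set α' := a' (.p false r' i')
  set β' := a' (.p true r' j')
  set κ' := a' (.c k')
  set s := g N (i + j + 1)
  have id1 : α' * ((X - Z') * (s * vv N (.p false r' i') + zz N (.p false r' i')) +
      (X' - X) * (s * vv N (.p true r' j') + zz N (.p true r' j')) -
      (X' - Z') * (s * vv N (.p false r i) + zz N (.p false r i))) -
      β * ((Z' - Z) * (s * vv N (.p false r i) + zz N (.p false r i)) +
      (X - Z') * (s * vv N (.p true r j) + zz N (.p true r j)) -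
      (X - Z) * (s * vv N (.p true r' j') + zz N (.p true r' j'))) =
      (X - Z') * (κ * (s - g N k) - κ' * (s - g N k')) := by
    linear_combination (-(X - Z')) * (s * v + z) +
      (s * vv N (.p false r i) + zz N (.p false r i)) * (u - Z' * w) +
      (s * vv N (.p true r' j') + zz N (.p true r' j')) * (X * w - u)
  have t1 := mul_nonneg n1' F1.le
  have t2 : 0 ≤ β * (-((Z' - Z) * (s * vv N (.p false r i) + zz N (.p false r i)) +
      (X - Z') * (s * vv N (.p true r j) + zz N (.p true r j)) -
      (X - Z) * (s * vv N (.p true r' j') + zz N (.p true r' j')))) :=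
    mul_nonneg n2 (by linarith)
  have t3 : 0 ≤ (X - Z') * (κ * (g N k - s) + κ' * (s - g N k')) :=
    mul_nonneg (by linarith) (add_nonneg (mul_nonneg n3 (by linarith))
      (mul_nonneg n3' (by linarith)))
  have z1 : α' = 0 := by
    have : α' * ((X - Z') * (s * vv N (.p false r' i') + zz N (.p false r' i')) +
      (X' - X) * (s * vv N (.p true r' j') + zz N (.p true r' j')) -
      (X' - Z') * (s * vv N (.p false r i) + zz N (.p false r i))) = 0 := by linarith
    rcases mul_eq_zero.mp this with h | h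
    · exact h
    · exact absurd h F1.ne'
  have z2 : β = 0 := by
    have : β * ((Z' - Z) * (s * vv N (.p false r i) + zz N (.p false r i)) +
      (X - Z') * (s * vv N (.p true r j) + zz N (.p true r j)) -
      (X - Z) * (s * vv N (.p true r' j') + zz N (.p true r' j'))) = 0 := by linarith
    rcases mul_eq_zero.mp this with h | h
    · exact h
    · exact absurd h F2.ne
  have z3 : α = 0 := by
    rw [z1, z2] at w u
    have : α * (X - Z') = 0 := by linear_combination u - Z' * w
    rcases mul_eq_zero.mp this with h | h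
    · exact h
    · linarith
  have z4 : β' = 0 := by
    rw [z1, z2, z3] at w; linarith
  rw [z1, z2, z3, z4] at v z
  have z5 : κ = κ' := by linarith
  intro x hx
  by_cases hxt : x ∈ fc r i j k
  · simp only [fc, mem_insert, mem_singleton] at hxt
    rcases hxt with rfl | rfl | rfl
    · exact z3
    · exact z2
    · have hkk : g N k ≠ g N k' := by
        intro h
        have := g_inj hN (by omega) (by omega) h
        subst this
        exact hx (by simp [fc])
      have : κ * (g N k - g N k') = 0 := by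
        rw [← z5] at z; linarith
      rcases mul_eq_zero.mp this with h | h
      · exact h
      · exact absurd (by linarith) hkk
  · exact S.su x hxt

/-- faces with separated ranges of the first coordinate -/
theorem sepd (hN : 1 ≤ N) {P Q P' Q' : W} {k k' : ℕ} (hP : Np P) (hQ : Np Q) (hP' : Np P')
    (hQ' : Np Q') (h1 : uu N Q < uu N P) (h2 : uu N P ≤ uu N P') (h3 : uu N P' < uu N Q')
    (he : uu N P = uu N P' → P = P') (hk : k ≤ 2 * N) (hk' : k' ≤ 2 * N) {a a' : W → ℝ}
    (S : Sol N ({P, Q, W.c k} : Finset W) ({P', Q', W.c k'} : Finset W) a a') :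
    ∀ x, x ∉ ({P', Q', W.c k'} : Finset W) → a x = 0 := by
  have hPQ : P ≠ Q := by rintro rfl; exact lt_irrefl _ h1
  have hPQ' : P' ≠ Q' := by rintro rfl; exact lt_irrefl _ h3
  obtain ⟨w, u, v, z⟩ := eqs hP hQ hPQ hP' hQ' hPQ' S
  have n1 := S.nn P
  have n2 := S.nn Q
  have n1' := S.nn' P'
  have n2' := S.nn' Q'
  have id1 : a Q * (uu N P - uu N Q) + a' Q' * (uu N Q' - uu N P') +
      (a P + a Q) * (uu N P' - uu N P) = 0 := by
    linear_combination uu N P' * w - u
  have t1 : 0 ≤ a Q * (uu N P - uu N Q) := mul_nonneg n2 (by linarith)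
  have t2 : 0 ≤ a' Q' * (uu N Q' - uu N P') := mul_nonneg n2' (by linarith)
  have t3 : 0 ≤ (a P + a Q) * (uu N P' - uu N P) := mul_nonneg (by linarith) (by linarith)
  have z1 : a Q = 0 := by
    have : a Q * (uu N P - uu N Q) = 0 := by linarith
    rcases mul_eq_zero.mp this with h | h
    · exact h
    · linarith
  have z2 : a' Q' = 0 := by
    have : a' Q' * (uu N Q' - uu N P') = 0 := by linarith
    rcases mul_eq_zero.mp this with h | h
    · exact h
    · linarith
  have z3 : a P = a' P' := by linarith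
  have z4 : P = P' ∨ a P = 0 := by
    have : (a P + a Q) * (uu N P' - uu N P) = 0 := by linarith
    rcases mul_eq_zero.mp this with h | h
    · right; linarith
    · left; exact he (by linarith)
  have z5 : a (W.c k) = a' (W.c k') ∧ a (W.c k) * g N k = a' (W.c k') * g N k' := by
    rw [z1, z2] at v z
    rcases z4 with h | h
    · subst h
      rw [z3] at v z
      exact ⟨by linarith, by linarith⟩
    · rw [← z3, h] at v z
      exact ⟨by linarith, by linarith⟩
  intro x hx
  by_cases hxt : x ∈ ({P, Q, W.c k} : Finset W)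
  · simp only [mem_insert, mem_singleton] at hxt
    rcases hxt with rfl | rfl | rfl
    · rcases z4 with h | h
      · subst h; exact absurd (by simp) hx
      · exact h
    · exact z1
    · have hkk : g N k ≠ g N k' := by
        intro h
        have := g_inj hN hk hk' h
        subst this
        exact hx (by simp)
      have : a (W.c k) * (g N k - g N k') = 0 := by
        have := z5.2
        rw [← z5.1] at this
        linarith
      rcases mul_eq_zero.mp this with h | h
      · exact h
      · exact absurd (by linarith) hkk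
  · exact S.su x hxt

/-- faces over the same edge -/
theorem same (hN : 1 ≤ N) {P Q : W} {k k' : ℕ} (hP : Np P) (hQ : Np Q)
    (h1 : uu N Q < uu N P) (hk : k ≤ 2 * N) (hk' : k' ≤ 2 * N) {a a' : W → ℝ}
    (S : Sol N ({P, Q, W.c k} : Finset W) ({P, Q, W.c k'} : Finset W) a a') :
    ∀ x, x ∉ ({P, Q, W.c k'} : Finset W) → a x = 0 := by
  have hPQ : P ≠ Q := by rintro rfl; exact lt_irrefl _ h1
  obtain ⟨w, u, v, z⟩ := eqs hP hQ hPQ hP hQ hPQ S
  have z1 : a P = a' P := by
    have : (a P - a' P) * (uu N P - uu N Q) = 0 := by linear_combination u - uu N Q * w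
    rcases mul_eq_zero.mp this with h | h <;> linarith
  have z2 : a Q = a' Q := by linarith
  rw [z1, z2] at v z
  have z5 : a (W.c k) = a' (W.c k') := by linarith
  have z6 : a (W.c k) * g N k = a' (W.c k') * g N k' := by linarith
  intro x hx
  by_cases hxt : x ∈ ({P, Q, W.c k} : Finset W)
  · simp only [mem_insert, mem_singleton] at hxt hx
    rcases hxt with rfl | rfl | rfl
    · exact absurd (Or.inl rfl) hx
    · exact absurd (Or.inr (Or.inl rfl)) hx
    · have hkk : g N k ≠ g N k' := by
        intro h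
        have := g_inj hN hk hk' h
        subst this
        exact hx (Or.inr (Or.inr rfl))
      have : a (W.c k) * (g N k - g N k') = 0 := by
        rw [← z5] at z6
        linarith
      rcases mul_eq_zero.mp this with h | h
      · exact h
      · exact absurd (by linarith) hkk
  · exact S.su x hxt

end Pool.Agent.Helper65.Quad
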