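import Mathlib
import Pool.Agent.Helper65.Quad.Sep
set_option autoImplicit false

/-!
# Two faces meet in a common face only: the cases
-/

namespace Pool.Agent.Helper65.Quad

open Finset Pool.Agent.Helper40.Surf

variable {N : ℕ}

/-- the support of one of the two solutions lies in the other face -/
def Good (t t' : Finset W) (a a' : W → ℝ) : Prop :=
  (∀ x, x ∉ t' → a x = 0) ∨ (∀ x, x ∉ t → a' x = 0)

theorem Good.symm {t t' : Finset W} {a a' : W → ℝ} (h : Good t' t a' a) : Good t t' a a' :=
  Or.symm h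

theorem good_fc (hN : 1 ≤ N) {r r' : Bool} {i j k i' j' k' : ℕ} (hi : i < N) (hj : j < N)
    (hi' : i' < N) (hj' : j' < N) (hk : k = i + j ∨ k = i + j + 1)
    (hk' : k' = i' + j' ∨ k' = i' + j' + 1) {a a' : W → ℝ}
    (S : Sol N (fc r i j k) (fc r' i' j' k') a a') :
    Good (fc r i j k) (fc r' i' j' k') a a' := by
  rcases lt_trichotomy (uu N (.p false r i)) (uu N (.p false r' i')) with hx | hx | hx
  · rcases lt_or_ge (uu N (.p true r j)) (uu N (.p true r' j')) with hy | hy
    · exact Or.inl (crossing hN hi hj hi' hj' hk hk' hx hy S)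
    · left
      refine nested hN (Or.inr (Or.inr (Or.inl ⟨r, i, rfl, hx⟩))) ?_ (by simp) hi' hj'
        (by omega) hk' S
      rcases hy.lt_or_eq with hy | hy
      · exact Or.inr (Or.inr (Or.inr ⟨r, j, hj, rfl, hy⟩))
      · exact Or.inr (Or.inl (u_inj hy.symm))
  · have hx' := u_inj hx
    rcases lt_or_ge (uu N (.p true r j)) (uu N (.p true r' j')) with hy | hy
    · right
      refine nested hN (Or.inl hx'.symm) (Or.inr (Or.inr (Or.inr ⟨r', j', hj', rfl, hy⟩)))
        (by simp) hi hj (by omega) hk S.symm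
    · left
      refine nested hN (Or.inl hx') ?_ (by simp) hi' hj' (by omega) hk' S
      rcases hy.lt_or_eq with hy | hy
      · exact Or.inr (Or.inr (Or.inr ⟨r, j, hj, rfl, hy⟩))
      · exact Or.inr (Or.inl (u_inj hy.symm))
  · rcases lt_or_ge (uu N (.p true r' j')) (uu N (.p true r j)) with hy | hy
    · exact Or.inr (crossing hN hi' hj' hi hj hk' hk hx hy S.symm)
    · right
      refine nested hN (Or.inr (Or.inr (Or.inl ⟨r', i', rfl, hx⟩))) ?_ (by simp) hi hj
        (by omega) hk S.symm
      rcases hy.lt_or_eq with hy | hy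
      · exact Or.inr (Or.inr (Or.inr ⟨r', j', hj', rfl, hy⟩))
      · exact Or.inr (Or.inl (u_inj hy.symm))

theorem fc_comm (r : Bool) (i j k : ℕ) :
    fc r i j k = {W.p true r j, W.p false r i, W.c k} := by
  ext x; simp only [fc, mem_insert, mem_singleton]; tauto

theorem cap_comm (s : Bool) (m k : ℕ) :
    cap s m k = {W.p s true m, W.p s false m, W.c k} := by
  ext x; simp only [cap, mem_insert, mem_singleton]; tauto

theorem capA_u (m : ℕ) : uu N (.p false true m) = uu N (.p false false m) + 1 := by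
  simp [uu]

theorem capB_u (m : ℕ) : uu N (.p true false m) = uu N (.p true true m) + 1 := by
  simp [uu]

/-- the right vertex of a cap -/
def Rt (s : Bool) (m : ℕ) : W := W.p s (!s) m
/-- the left vertex of a cap -/
def Lt (s : Bool) (m : ℕ) : W := W.p s s m

theorem cap_u (s : Bool) (m : ℕ) : uu N (Rt s m) = uu N (Lt s m) + 1 := by
  cases s
  · simp [Rt, Lt, uu]
  · simp [Rt, Lt, uu]

theorem npR (s : Bool) (m : ℕ) : Np (Rt s m) := ⟨_, _, _, rfl⟩
theorem npL (s : Bool) (m : ℕ) : Np (Lt s m) := ⟨_, _, _, rfl⟩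

theorem cap_RL (s : Bool) (m k : ℕ) : cap s m k = {Rt s m, Lt s m, W.c k} := by
  cases s
  · exact cap_comm false m k
  · rfl

theorem good_cap_fc (hN : 1 ≤ N) {s r' : Bool} {m k i' j' k' : ℕ} (hm : m < N)
    (hi' : i' < N) (hj' : j' < N) (hk : k = m ∨ k = m + N)
    (hk' : k' = i' + j' ∨ k' = i' + j' + 1) {a a' : W → ℝ}
    (S : Sol N (cap s m k) (fc r' i' j' k') a a') :
    Good (cap s m k) (fc r' i' j' k') a a' := by
  cases s
  · -- side A
    rcases lt_or_ge (uu N (.p false false m)) (uu N (.p false r' i')) with h | h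
    · left
      refine nested hN (Or.inr (Or.inr (Or.inl ⟨false, m, rfl, h⟩))) ?_ (by simp) hi' hj'
        (by omega) hk' S
      have h2 := u_step h
      rw [← capA_u] at h2
      rcases h2.lt_or_eq with h2 | h2
      · exact Or.inr (Or.inr (Or.inl ⟨true, m, rfl, h2⟩))
      · exact Or.inl (u_inj h2)
    · right
      rw [cap_comm, show ({W.p false true m, W.p false false m, W.c k} : Finset W) =
        {W.p false false m, W.p false true m, W.c k} from (cap_comm false m k).symm] at S ⊢
      refine sepd hN (np false r' i') (np true r' j') (np _ _ _) (np _ _ _) (uAB hN r' r' hj') h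
        ?_ (fun e => u_inj e) (by omega) (by omega) S.symm
      rw [capA_u]; linarith
  · -- side B
    rcases lt_or_ge (uu N (.p true r' j')) (uu N (.p true false m)) with h | h
    · left
      refine nested hN (Or.inr (Or.inr (Or.inr ⟨false, m, hm, rfl, h⟩))) ?_ (by simp) hi' hj'
        (by omega) hk' S
      have h2 := u_step h
      rw [capB_u] at h2
      have h3 : uu N (.p true r' j') ≤ uu N (.p true true m) := by linarith
      rcases h3.lt_or_eq with h3 | h3
      · exact Or.inr (Or.inr (Or.inr ⟨true, m, hm, rfl, h3⟩))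
      · exact Or.inr (Or.inl (u_inj h3.symm))
    · left
      rw [fc_comm] at S ⊢
      refine sepd hN (np true false m) (np true true m) (np _ _ _) (np _ _ _) ?_ h
        (uAB hN r' r' hj') (fun e => u_inj e) (by omega) (by omega) S
      rw [capB_u]; linarith

theorem good_cap_cap (hN : 1 ≤ N) {s s' : Bool} {m k m' k' : ℕ} (hm : m < N)
    (hm' : m' < N) (hk : k = m ∨ k = m + N) (hk' : k' = m' ∨ k' = m' + N) {a a' : W → ℝ}
    (S : Sol N (cap s m k) (cap s' m' k') a a') :
    Good (cap s m k) (cap s' m' k') a a' := by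
  have e1 : ∀ (s : Bool) (m k : ℕ), cap s m k = {Lt s m, Rt s m, W.c k} := by
    intro s m k
    rw [cap_RL]
    ext x; simp only [mem_insert, mem_singleton]; tauto
  have key : ∀ {s s' : Bool} {m k m' k' : ℕ} {a a' : W → ℝ}, k ≤ 2 * N → k' ≤ 2 * N →
      uu N (Rt s m) ≤ uu N (Lt s' m') → (uu N (Rt s m) = uu N (Lt s' m') → Rt s m = Lt s' m') →
      Sol N (cap s m k) (cap s' m' k') a a' → ∀ x, x ∉ cap s' m' k' → a x = 0 := by
    intro s s' m k m' k' a a' hk hk' h he S
    rw [cap_RL s m k, e1 s' m' k'] at S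
    rw [e1 s' m' k']
    refine sepd hN (npR s m) (npL s m) (npL s' m') (npR s' m') ?_ h ?_ he hk hk' S
    · have := cap_u (N := N) s m; linarith
    · have := cap_u (N := N) s' m'; linarith
  by_cases hs : s = s'
  · subst hs
    rcases lt_trichotomy m m' with h | rfl | h
    · left
      have h0 : (m : ℝ) + 1 ≤ m' := by exact_mod_cast h
      refine key (by omega) (by omega) ?_ ?_ S
      · cases s <;> simp [Rt, Lt, uu] <;> linarith
      · intro e
        exfalso
        cases s <;> simp [Rt, Lt, uu] at e <;> linarith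
    · left
      rw [cap_RL s m k, cap_RL s m k'] at S
      rw [cap_RL s m k']
      refine same hN (npR s m) (npL s m) ?_ (by omega) (by omega) S
      have := cap_u (N := N) s m; linarith
    · right
      have h0 : (m' : ℝ) + 1 ≤ m := by exact_mod_cast h
      refine key (by omega) (by omega) ?_ ?_ S.symm
      · cases s <;> simp [Rt, Lt, uu] <;> linarith
      · intro e
        exfalso
        cases s <;> simp [Rt, Lt, uu] at e <;> linarith
  · cases s
    · have hs' : s' = true := by cases s' <;> simp_all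
      subst hs'
      right
      have h0 := uAB (N := N) hN (r := false) (s := false) (i := m) hm'
      refine key (by omega) (by omega) ?_ ?_ S.symm
      · exact h0.le
      · intro e; exact absurd e h0.ne
    · have hs' : s' = false := by cases s' <;> simp_all
      subst hs'
      left
      have h0 := uAB (N := N) hN (r := false) (s := false) (i := m') hm
      refine key (by omega) (by omega) ?_ ?_ S
      · exact h0.le
      · intro e; exact absurd e h0.ne

theorem good_TT (hN : 1 ≤ N) {t t' : Finset W} (ht : t ∈ TT N) (ht' : t' ∈ TT N) {a a' : W → ℝ}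
    (S : Sol N t t' a a') : Good t t' a a' := by
  rcases mem_TT.mp ht with ⟨r, i, j, k, hi, hj, hk, rfl⟩ | ⟨s, m, k, hm, hk, rfl⟩
  · rcases mem_TT.mp ht' with ⟨r', i', j', k', hi', hj', hk', rfl⟩ | ⟨s', m', k', hm', hk', rfl⟩
    · exact good_fc hN hi hj hi' hj' hk hk' S
    · exact (good_cap_fc hN hm' hi hj hk' hk S.symm).symm
  · rcases mem_TT.mp ht' with ⟨r', i', j', k', hi', hj', hk', rfl⟩ | ⟨s', m', k', hm', hk', rfl⟩
    · exact good_cap_fc hN hm hi' hj' hk hk' S
    · exact good_cap_cap hN hm hm' hk hk' S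

theorem edge_form (hN : 1 ≤ N) {t : Finset W} (ht : t ∈ TT N) :
    ∃ P Q k, Np P ∧ Np Q ∧ uu N Q < uu N P ∧ t = {P, Q, W.c k} := by
  rcases mem_TT.mp ht with ⟨r, i, j, k, hi, hj, hk, rfl⟩ | ⟨s, m, k, hm, hk, rfl⟩
  · exact ⟨_, _, k, np false r i, np true r j, uAB hN r r hj, rfl⟩
  · refine ⟨Rt s m, Lt s m, k, npR s m, npL s m, ?_, cap_RL s m k⟩
    have := cap_u (N := N) s m; linarith

/-- linear independence of the three vertices of a face -/
theorem hind (hN : 1 ≤ N) {t : Finset W} (ht : t ∈ TT N) {a : W → ℝ}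
    (hu : ∑ x ∈ t, a x * uu N x = 0) (hv : ∑ x ∈ t, a x * vv N x = 0)
    (hw : ∑ x ∈ t, a x * ww x = 0) : ∀ x ∈ t, a x = 0 := by
  obtain ⟨P, Q, k, hP, hQ, h, rfl⟩ := edge_form hN ht
  have hPQ : P ≠ Q := by rintro rfl; exact lt_irrefl _ h
  rw [sum3 hP hQ hPQ] at hu hv hw
  rw [hP.ww, hQ.ww] at hw
  have e1 : ww (W.c k) = 0 := rfl
  have e2 : uu N (W.c k) = 0 := rfl
  have e3 : vv N (W.c k) = 1 := rfl
  rw [e1] at hw
  rw [e2] at hu
  rw [e3] at hv
  have z1 : a P = 0 := by
    have : a P * (uu N P - uu N Q) = 0 := by linear_combination hu - uu N Q * hw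
    rcases mul_eq_zero.mp this with h | h
    · exact h
    · linarith
  have z2 : a Q = 0 := by rw [z1] at hw; linarith
  have z3 : a (W.c k) = 0 := by rw [z1, z2] at hv; linarith
  intro x hx
  simp only [mem_insert, mem_singleton] at hx
  rcases hx with rfl | rfl | rfl <;> assumption

theorem sum_supp {t t' : Finset W} {a : W → ℝ} (h : ∀ x, x ∉ t → a x = 0)
    (h' : ∀ x, x ∉ t' → a x = 0) (f : W → ℝ) :
    ∑ x ∈ t, a x * f x = ∑ x ∈ t', a x * f x := by
  have e1 : ∑ x ∈ t, a x * f x = ∑ x ∈ t ∪ t', a x * f x :=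
    sum_subset subset_union_left (fun x _ hx => by rw [h x hx, zero_mul])
  have e2 : ∑ x ∈ t', a x * f x = ∑ x ∈ t ∪ t', a x * f x :=
    sum_subset subset_union_right (fun x _ hx => by rw [h' x hx, zero_mul])
  rw [e1, e2]

theorem eq_of_supp (hN : 1 ≤ N) {t t' : Finset W} (ht' : t' ∈ TT N)
    {a a' : W → ℝ} (S : Sol N t t' a a') (h : ∀ x, x ∉ t' → a x = 0) : ∀ x, a x = a' x := by
  have e : ∀ f : W → ℝ, ∑ x ∈ t, a x * f x = ∑ x ∈ t', a' x * f x →
      ∑ x ∈ t', (a x - a' x) * f x = 0 := by
    intro f hf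
    rw [sum_supp S.su h f] at hf
    simp only [sub_mul, sum_sub_distrib]
    linarith
  have := hind hN ht' (a := fun x => a x - a' x) (e _ S.hu) (e _ S.hv) (e _ S.hw)
  intro x
  by_cases hx : x ∈ t'
  · have := this x hx; linarith
  · rw [h x hx, S.su' x hx]

/-- two faces have the same coordinates at a common point -/
theorem hsep (hN : 1 ≤ N) {t t' : Finset W} (ht : t ∈ TT N) (ht' : t' ∈ TT N) {a a' : W → ℝ}
    (S : Sol N t t' a a') : ∀ x, a x = a' x := by
  rcases good_TT hN ht ht' S with h | h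
  · exact eq_of_supp hN ht' S h
  · intro x
    exact (eq_of_supp hN ht S.symm h x).symm

end Pool.Agent.Helper65.Quad
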