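import Mathlib
import Pool.Agent.Helper65.Quad.Main
import Pool.Agent.Helper65.Quad.Cone
set_option autoImplicit false

/-!
# The surface is embedded
-/

namespace Pool.Agent.Helper65.Quad

open Finset Pool.Agent.Helper40.Surf

variable {N : ℕ}

theorem ll_pos (hN : 1 ≤ N) (x : W) : 0 < ll N x := by
  rcases x with ⟨s, r, i⟩ | k
  · cases s
    · have := vA_pos hN r i
      simp only [ll, ww]
      linarith
    · simp [ll, ww, vv]
  · simp [ll, ww, vv]

theorem sum_ll (t : Finset W) (a : W → ℝ) :
    ∑ x ∈ t, a x * ll N x = ∑ x ∈ t, a x * ww x + ∑ x ∈ t, a x * vv N x := by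
  rw [← sum_add_distrib]
  exact sum_congr rfl fun x _ => by simp only [ll]; ring

theorem isGeom_TT (hN : 1 ≤ N) : IsGeom (pos N) (TT N) := by
  refine isGeom_of_cone (u := uu N) (v := vv N) (z := zz N) (l := ll N)
    (fun t _ x _ => ll_pos hN x) ?_ ?_
  · intro t ht a hu hv _ hl
    rw [sum_ll] at hl
    exact hind hN ht hu hv (by linarith)
  · intro t ht t' ht' a a' nn nn' su su' hu hv hz hl
    rw [sum_ll, sum_ll] at hl
    exact hsep hN ht ht' ⟨nn, nn', su, su', hu, hv, hz, by linarith⟩

end Pool.Agent.Helper65.Quad
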