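import Mathlib
import Pool.Agent.Helper65.Quad.Defs
set_option autoImplicit false

/-!
# The vertex links of the triangulation `TT N` are connected
-/

namespace Pool.Agent.Helper65.Quad

open Finset Pool.Agent.Helper40.Surf Relation

theorem la_symm {T : Finset (Finset W)} {v a b : W} (h : LA T v a b) : LA T v b a := by
  obtain ⟨t, ht, hv, ha, hb, hav, hbv⟩ := h
  exact ⟨t, ht, hv, hb, ha, hbv, hav⟩

theorem rt_symm {T : Finset (Finset W)} {v a b : W} (h : ReflTransGen (LA T v) a b) :
    ReflTransGen (LA T v) b a := by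
  induction h with
  | refl => exact ReflTransGen.refl
  | tail _ hbc ih => exact (ReflTransGen.single (la_symm hbc)).trans ih

theorem mem_fc {r : Bool} {i j k : ℕ} {x : W} :
    x ∈ fc r i j k ↔ x = W.p false r i ∨ x = W.p true r j ∨ x = W.c k := by
  simp [fc]

theorem mem_cap {s : Bool} {m k : ℕ} {x : W} :
    x ∈ cap s m k ↔ x = W.p s false m ∨ x = W.p s true m ∨ x = W.c k := by
  simp [cap]

theorem fc_memL {N : ℕ} {r : Bool} {i j k : ℕ} (hi : i < N) (hj : j < N)
    (hk : k = i + j ∨ k = i + j + 1) : fc r i j k ∈ TT N :=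
  mem_TT.mpr (Or.inl ⟨r, i, j, k, hi, hj, hk, rfl⟩)

theorem cap_memL {N : ℕ} {s : Bool} {m k : ℕ} (hm : m < N)
    (hk : k = m ∨ k = m + N) : cap s m k ∈ TT N :=
  mem_TT.mpr (Or.inr ⟨s, m, k, hm, hk, rfl⟩)

/-- link edges at a side vertex, first kind -/
theorem la_side {N : ℕ} (s r : Bool) {i j k : ℕ} (hi : i < N) (hj : j < N)
    (hk : k = i + j ∨ k = i + j + 1) : LA (TT N) (W.p s r i) (W.p (!s) r j) (W.c k) := by
  cases s
  · exact ⟨fc r i j k, fc_memL hi hj hk, by simp [mem_fc], by simp [mem_fc], by simp [mem_fc],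
      by simp, by simp⟩
  · exact ⟨fc r j i k, fc_memL hj hi (by omega), by simp [mem_fc], by simp [mem_fc],
      by simp [mem_fc], by simp, by simp⟩

/-- link edges at a side vertex, caps -/
theorem la_side_cap {N : ℕ} (s r : Bool) {m k : ℕ} (hm : m < N)
    (hk : k = m ∨ k = m + N) : LA (TT N) (W.p s r m) (W.p s (!r) m) (W.c k) := by
  cases r
  · exact ⟨cap s m k, cap_memL hm hk, by simp [mem_cap], by simp [mem_cap], by simp [mem_cap],
      by simp, by simp⟩
  · exact ⟨cap s m k, cap_memL hm hk, by simp [mem_cap], by simp [mem_cap], by simp [mem_cap],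
      by simp, by simp⟩

/-- link edges at a pole, first kind -/
theorem la_pole {N : ℕ} (s r : Bool) {i j k : ℕ} (hi : i < N) (hj : j < N)
    (hk : k = i + j ∨ k = i + j + 1) : LA (TT N) (W.c k) (W.p s r i) (W.p (!s) r j) := by
  cases s
  · exact ⟨fc r i j k, fc_memL hi hj hk, by simp [mem_fc], by simp [mem_fc], by simp [mem_fc],
      by simp, by simp⟩
  · exact ⟨fc r j i k, fc_memL hj hi (by omega), by simp [mem_fc], by simp [mem_fc],
      by simp [mem_fc], by simp, by simp⟩

/-- link edges at a pole, caps -/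
theorem la_pole_cap {N : ℕ} (s r : Bool) {m k : ℕ} (hm : m < N)
    (hk : k = m ∨ k = m + N) : LA (TT N) (W.c k) (W.p s r m) (W.p s (!r) m) := by
  cases r
  · exact ⟨cap s m k, cap_memL hm hk, by simp [mem_cap], by simp [mem_cap], by simp [mem_cap],
      by simp, by simp⟩
  · exact ⟨cap s m k, cap_memL hm hk, by simp [mem_cap], by simp [mem_cap], by simp [mem_cap],
      by simp, by simp⟩

/-- the link vertices at a side vertex -/
theorem side_cases {N : ℕ} {s r : Bool} {i : ℕ} {a : W} (h : LA (TT N) (W.p s r i) a a) :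
    i < N ∧ ((∃ j, j < N ∧ (a = W.p (!s) r j ∨ a = W.c (i + j) ∨ a = W.c (i + j + 1))) ∨
      a = W.p s (!r) i ∨ a = W.c i ∨ a = W.c (i + N)) := by
  obtain ⟨t, ht, hv, ha, -, hav, -⟩ := h
  rcases mem_TT.mp ht with ⟨r', i', j', k', hi, hj, hk, rfl⟩ | ⟨s', m, k', hm, hk, rfl⟩
  · rw [mem_fc] at hv ha
    rcases hv with hv | hv | hv
    · obtain ⟨rfl, rfl, rfl⟩ : s = false ∧ r = r' ∧ i = i' := by simpa using hv
      refine ⟨hi, Or.inl ⟨j', hj, ?_⟩⟩
      rcases ha with ha | ha | ha
      · exact absurd ha hav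
      · left; simpa using ha
      · rcases hk with rfl | rfl
        · right; left; exact ha
        · right; right; exact ha
    · obtain ⟨rfl, rfl, rfl⟩ : s = true ∧ r = r' ∧ i = j' := by simpa using hv
      refine ⟨hj, Or.inl ⟨i', hi, ?_⟩⟩
      rcases ha with ha | ha | ha
      · left; simpa using ha
      · exact absurd ha hav
      · rcases hk with rfl | rfl
        · right; left; rw [ha, add_comm]
        · right; right; rw [ha, add_comm i' i]
    · simp at hv
  · rw [mem_cap] at hv ha
    have key : s = s' ∧ i = m := by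
      rcases hv with hv | hv | hv
      · simp at hv; exact ⟨hv.1, hv.2.2⟩
      · simp at hv; exact ⟨hv.1, hv.2.2⟩
      · simp at hv
    obtain ⟨rfl, rfl⟩ := key
    refine ⟨hm, Or.inr ?_⟩
    rcases ha with ha | ha | ha
    · left
      cases r
      · exact absurd ha hav
      · simpa using ha
    · left
      cases r
      · simpa using ha
      · exact absurd ha hav
    · rcases hk with rfl | rfl
      · right; left; exact ha
      · right; right; exact ha

/-- the link vertices at a pole -/
theorem pole_cases {N : ℕ} (hN : 1 ≤ N) {k : ℕ} {a : W} (h : LA (TT N) (W.c k) a a) :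
    ∃ s r i j, i < N ∧ j < N ∧ (k = i + j ∨ k = i + j + 1) ∧ a = W.p s r i := by
  obtain ⟨t, ht, hv, ha, -, hav, -⟩ := h
  rcases mem_TT.mp ht with ⟨r', i', j', k', hi, hj, hk, rfl⟩ | ⟨s', m, k', hm, hk, rfl⟩
  · rw [mem_fc] at hv ha
    rcases hv with hv | hv | hv
    · simp at hv
    · simp at hv
    · obtain rfl : k = k' := by simpa using hv
      rcases ha with ha | ha | ha
      · exact ⟨false, r', i', j', hi, hj, hk, ha⟩
      · exact ⟨true, r', j', i', hj, hi, by omega, ha⟩
      · exact absurd ha hav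
  · rw [mem_cap] at hv ha
    rcases hv with hv | hv | hv
    · simp at hv
    · simp at hv
    · obtain rfl : k = k' := by simpa using hv
      have hk' : ∃ j, j < N ∧ (k = m + j ∨ k = m + j + 1) := by
        rcases hk with hk | hk
        · exact ⟨0, by omega, by omega⟩
        · exact ⟨N - 1, by omega, by omega⟩
      obtain ⟨j, hj, hkj⟩ := hk'
      rcases ha with ha | ha | ha
      · exact ⟨s', false, m, j, hm, hj, hkj, ha⟩
      · exact ⟨s', true, m, j, hm, hj, hkj, ha⟩
      · exact absurd ha hav

/-- the zigzag in the link of a side vertex -/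
theorem side_chain {N : ℕ} (s r : Bool) {i : ℕ} (hi : i < N) (j : ℕ) (hj : j < N) :
    ReflTransGen (LA (TT N) (W.p s r i)) (W.c i) (W.c (i + j)) ∧
    ReflTransGen (LA (TT N) (W.p s r i)) (W.c i) (W.p (!s) r j) ∧
    ReflTransGen (LA (TT N) (W.p s r i)) (W.c i) (W.c (i + j + 1)) := by
  induction j with
  | zero =>
    have e1 : LA (TT N) (W.p s r i) (W.p (!s) r 0) (W.c i) := la_side s r hi hj (by omega)
    have e2 : LA (TT N) (W.p s r i) (W.p (!s) r 0) (W.c (i + 0 + 1)) :=
      la_side s r hi hj (by omega)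
    refine ⟨ReflTransGen.refl, ReflTransGen.single (la_symm e1), ?_⟩
    exact (ReflTransGen.single (la_symm e1)).tail e2
  | succ j ih =>
    obtain ⟨-, -, h3⟩ := ih (by omega)
    have e1 : LA (TT N) (W.p s r i) (W.p (!s) r (j + 1)) (W.c (i + j + 1)) :=
      la_side s r hi hj (by omega)
    have e2 : LA (TT N) (W.p s r i) (W.p (!s) r (j + 1)) (W.c (i + (j + 1) + 1)) :=
      la_side s r hi hj (by omega)
    exact ⟨h3, h3.tail (la_symm e1), (h3.tail (la_symm e1)).tail e2⟩

theorem side_reach {N : ℕ} (hN : 1 ≤ N) {s r : Bool} {i : ℕ} {a : W}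
    (h : LA (TT N) (W.p s r i) a a) :
    ReflTransGen (LA (TT N) (W.p s r i)) (W.c i) a := by
  obtain ⟨hi, ⟨j, hj, ha | ha | ha⟩ | ha | ha | ha⟩ := side_cases h
  · rw [ha]; exact (side_chain s r hi j hj).2.1
  · rw [ha]; exact (side_chain s r hi j hj).1
  · rw [ha]; exact (side_chain s r hi j hj).2.2
  · rw [ha]; exact ReflTransGen.single (la_symm (la_side_cap s r hi (Or.inl rfl)))
  · rw [ha]
  · have := (side_chain s r hi (N - 1) (by omega)).2.2
    rw [ha, show i + N = i + (N - 1) + 1 by omega]
    exact this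

/-- the zigzag in the link of a low pole -/
theorem low_chain {N : ℕ} (r : Bool) {k : ℕ} (hk : k < N) (j : ℕ) (hj : j ≤ k) :
    ReflTransGen (LA (TT N) (W.c k)) (W.p false r k) (W.p false r (k - j)) ∧
    ReflTransGen (LA (TT N) (W.c k)) (W.p false r k) (W.p true r j) := by
  induction j with
  | zero =>
    exact ⟨ReflTransGen.refl,
      ReflTransGen.single (la_pole false r hk (by omega) (by omega))⟩
  | succ j ih =>
    obtain ⟨-, h2⟩ := ih (by omega)
    have e1 : LA (TT N) (W.c k) (W.p true r j) (W.p false r (k - (j + 1))) :=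
      la_pole true r (by omega) (by omega) (by omega)
    have e2 : LA (TT N) (W.c k) (W.p false r (k - (j + 1))) (W.p true r (j + 1)) :=
      la_pole false r (by omega) (by omega) (by omega)
    exact ⟨h2.tail e1, (h2.tail e1).tail e2⟩

/-- the zigzag in the link of a high pole -/
theorem high_chain {N : ℕ} (r : Bool) {k m : ℕ} (hk : k = m + N) (t : ℕ) (ht : m + t < N) :
    ReflTransGen (LA (TT N) (W.c k)) (W.p false r m) (W.p false r (m + t)) ∧
    ReflTransGen (LA (TT N) (W.c k)) (W.p false r m) (W.p true r (N - 1 - t)) := by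
  induction t with
  | zero =>
    exact ⟨ReflTransGen.refl,
      ReflTransGen.single (la_pole false r (by omega) (by omega) (by omega))⟩
  | succ t ih =>
    obtain ⟨-, h2⟩ := ih (by omega)
    have e1 : LA (TT N) (W.c k) (W.p true r (N - 1 - t)) (W.p false r (m + (t + 1))) :=
      la_pole true r (by omega) (by omega) (by omega)
    have e2 : LA (TT N) (W.c k) (W.p false r (m + (t + 1))) (W.p true r (N - 1 - (t + 1))) :=
      la_pole false r (by omega) (by omega) (by omega)
    exact ⟨h2.tail e1, (h2.tail e1).tail e2⟩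

theorem pole_reach_low {N : ℕ} {k : ℕ} (hk : k < N) (s r : Bool) {i j : ℕ}
    (hij : k = i + j ∨ k = i + j + 1) :
    ReflTransGen (LA (TT N) (W.c k)) (W.p false false k) (W.p s r i) := by
  have h0 : ReflTransGen (LA (TT N) (W.c k)) (W.p false false k) (W.p false r k) := by
    cases r
    · exact ReflTransGen.refl
    · exact ReflTransGen.single (la_pole_cap false false hk (Or.inl rfl))
  refine h0.trans ?_
  cases s
  · have := (low_chain r hk (k - i) (by omega)).1
    rwa [show k - (k - i) = i by omega] at this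
  · exact (low_chain r hk i (by omega)).2

theorem pole_reach_high {N : ℕ} {k m : ℕ} (hk : k = m + N) (s r : Bool) {i j : ℕ}
    (hi : i < N) (hj : j < N) (hij : k = i + j ∨ k = i + j + 1) :
    ReflTransGen (LA (TT N) (W.c k)) (W.p false false m) (W.p s r i) := by
  have hm : m < N := by omega
  have h0 : ReflTransGen (LA (TT N) (W.c k)) (W.p false false m) (W.p false r m) := by
    cases r
    · exact ReflTransGen.refl
    · exact ReflTransGen.single (la_pole_cap false false hm (Or.inr hk))
  refine h0.trans ?_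
  cases s
  · have := (high_chain r hk (i - m) (by omega)).1
    rwa [show m + (i - m) = i by omega] at this
  · have := (high_chain r hk (N - 1 - i) (by omega)).2
    rwa [show N - 1 - (N - 1 - i) = i by omega] at this

/-- the vertex links of `TT N` are connected -/
theorem link_TT {N : ℕ} (hN : 1 ≤ N) : ∀ v a b, LA (TT N) v a a → LA (TT N) v b b →
    ReflTransGen (LA (TT N) v) a b := by
  intro v a b ha hb
  cases v with
  | p s r i => exact (rt_symm (side_reach hN ha)).trans (side_reach hN hb)
  | c k =>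
    obtain ⟨s, r, i, j, hi, hj, hij, rfl⟩ := pole_cases hN ha
    obtain ⟨s', r', i', j', hi', hj', hij', rfl⟩ := pole_cases hN hb
    rcases lt_or_ge k N with hk | hk
    · exact (rt_symm (pole_reach_low hk s r hij)).trans
        (pole_reach_low hk s' r' hij')
    · have hk' : k = (k - N) + N := by omega
      exact (rt_symm (pole_reach_high hk' s r hi hj hij)).trans
        (pole_reach_high hk' s' r' hi' hj' hij')

end Pool.Agent.Helper65.Quad
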