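import Mathlib
import Pool.Agent.Helper65.Quad.Defs
set_option autoImplicit false

/-!
# Every edge of the surface lies in exactly two faces
-/

namespace Pool.Agent.Helper65.Quad

open Finset Pool.Agent.Helper40.Surf

/-- the faces through an edge of the first kind -/
theorem ins_pp {N : ℕ} {r : Bool} {i j : ℕ} {w : W} (h1 : w ≠ W.p false r i)
    (h2 : w ≠ W.p true r j) :
    insert w {W.p false r i, W.p true r j} ∈ TT N ↔
      i < N ∧ j < N ∧ (w = W.c (i + j) ∨ w = W.c (i + j + 1)) := by
  constructor
  · intro h
    rcases mem_TT.mp h with ⟨r', i', j', k', hi, hj, hk, he⟩ | ⟨s', m', k', hm, hk, he⟩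
    · have hx : W.p false r i ∈ fc r' i' j' k' := by rw [← he]; simp
      have hy : W.p true r j ∈ fc r' i' j' k' := by rw [← he]; simp
      have hw : w ∈ fc r' i' j' k' := by rw [← he]; simp
      simp only [fc, mem_insert, mem_singleton, W.p.injEq, true_and, reduceCtorEq, Bool.false_eq_true,
        Bool.true_eq_false, false_and, or_false, false_or] at hx hy hw
      obtain ⟨rfl, rfl⟩ := hx
      obtain ⟨-, rfl⟩ := hy
      rcases hw with hw | hw | hw
      · exact absurd hw h1
      · exact absurd hw h2
      · refine ⟨hi, hj, ?_⟩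
        rcases hk with rfl | rfl
        · exact Or.inl hw
        · exact Or.inr hw
    · exfalso
      have hx : W.p false r i ∈ cap s' m' k' := by rw [← he]; simp
      have hy : W.p true r j ∈ cap s' m' k' := by rw [← he]; simp
      simp only [cap, mem_insert, mem_singleton, W.p.injEq, reduceCtorEq, or_false] at hx hy
      rcases hx with ⟨hx, -⟩ | ⟨hx, -⟩ <;> rcases hy with ⟨hy, -⟩ | ⟨hy, -⟩ <;>
        exact absurd (hx.trans hy.symm) (by decide)
  · rintro ⟨hi, hj, hw⟩
    refine mem_TT.mpr (Or.inl ?_)
    rcases hw with rfl | rfl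
    · refine ⟨r, i, j, i + j, hi, hj, Or.inl rfl, ?_⟩
      ext x; simp only [fc, mem_insert, mem_singleton]; tauto
    · refine ⟨r, i, j, i + j + 1, hi, hj, Or.inr rfl, ?_⟩
      ext x; simp only [fc, mem_insert, mem_singleton]; tauto

/-- the faces through an edge between a vertex and a pole -/
theorem ins_pc {N : ℕ} {s r : Bool} {i k : ℕ} {w : W} (h1 : w ≠ W.p s r i)
    (h2 : w ≠ W.c k) :
    insert w {W.p s r i, W.c k} ∈ TT N ↔
      i < N ∧ ((∃ j, j < N ∧ (k = i + j ∨ k = i + j + 1) ∧ w = W.p (!s) r j) ∨
        ((k = i ∨ k = i + N) ∧ w = W.p s (!r) i)) := by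
  constructor
  · intro h
    rcases mem_TT.mp h with ⟨r', i', j', k', hi, hj, hk, he⟩ | ⟨s', m', k', hm, hk, he⟩
    · have hx : W.p s r i ∈ fc r' i' j' k' := by rw [← he]; simp
      have hy : W.c k ∈ fc r' i' j' k' := by rw [← he]; simp
      have hw : w ∈ fc r' i' j' k' := by rw [← he]; simp
      simp only [fc, mem_insert, mem_singleton, W.p.injEq, W.c.injEq, reduceCtorEq, or_false,
        false_or] at hx hy hw
      subst hy
      rcases hx with ⟨rfl, rfl, rfl⟩ | ⟨rfl, rfl, rfl⟩
      · rcases hw with hw | hw | hw
        · exact absurd hw h1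
        · refine ⟨hi, Or.inl ⟨j', hj, hk, ?_⟩⟩
          simpa using hw
        · exact absurd hw h2
      · rcases hw with hw | hw | hw
        · refine ⟨hj, Or.inl ⟨i', hi, by omega, ?_⟩⟩
          simpa using hw
        · exact absurd hw h1
        · exact absurd hw h2
    · have hx : W.p s r i ∈ cap s' m' k' := by rw [← he]; simp
      have hy : W.c k ∈ cap s' m' k' := by rw [← he]; simp
      have hw : w ∈ cap s' m' k' := by rw [← he]; simp
      simp only [cap, mem_insert, mem_singleton, W.p.injEq, W.c.injEq, reduceCtorEq, or_false,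
        false_or] at hx hy hw
      subst hy
      rcases hx with ⟨rfl, rfl, rfl⟩ | ⟨rfl, rfl, rfl⟩
      · rcases hw with hw | hw | hw
        · exact absurd hw h1
        · exact ⟨hm, Or.inr ⟨hk, by simpa using hw⟩⟩
        · exact absurd hw h2
      · rcases hw with hw | hw | hw
        · exact ⟨hm, Or.inr ⟨hk, by simpa using hw⟩⟩
        · exact absurd hw h1
        · exact absurd hw h2
  · rintro ⟨hi, ⟨j, hj, hk, rfl⟩ | ⟨hk, rfl⟩⟩
    · refine mem_TT.mpr (Or.inl ?_)
      cases s
      · refine ⟨r, i, j, k, hi, hj, hk, ?_⟩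
        ext x; simp only [fc, mem_insert, mem_singleton, Bool.not_false]; tauto
      · refine ⟨r, j, i, k, hj, hi, by omega, ?_⟩
        ext x; simp only [fc, mem_insert, mem_singleton, Bool.not_true]
    · refine mem_TT.mpr (Or.inr ⟨s, i, k, hi, hk, ?_⟩)
      cases r
      · ext x; simp only [cap, mem_insert, mem_singleton, Bool.not_false]; tauto
      · ext x; simp only [cap, mem_insert, mem_singleton, Bool.not_true]

/-- the faces through an edge of a cap -/
theorem ins_mm {N : ℕ} {s : Bool} {m : ℕ} {w : W} (h1 : w ≠ W.p s false m)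
    (h2 : w ≠ W.p s true m) :
    insert w {W.p s false m, W.p s true m} ∈ TT N ↔
      m < N ∧ (w = W.c m ∨ w = W.c (m + N)) := by
  constructor
  · intro h
    rcases mem_TT.mp h with ⟨r', i', j', k', hi, hj, hk, he⟩ | ⟨s', m', k', hm, hk, he⟩
    · exfalso
      have hx : W.p s false m ∈ fc r' i' j' k' := by rw [← he]; simp
      have hy : W.p s true m ∈ fc r' i' j' k' := by rw [← he]; simp
      simp only [fc, mem_insert, mem_singleton, W.p.injEq, reduceCtorEq, or_false] at hx hy
      rcases hx with ⟨-, hx, -⟩ | ⟨-, hx, -⟩ <;> rcases hy with ⟨-, hy, -⟩ | ⟨-, hy, -⟩ <;>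
        exact absurd (hx.trans hy.symm) (by decide)
    · have hx : W.p s false m ∈ cap s' m' k' := by rw [← he]; simp
      have hw : w ∈ cap s' m' k' := by rw [← he]; simp
      simp only [cap, mem_insert, mem_singleton, W.p.injEq, true_and, reduceCtorEq, or_false,
        Bool.false_eq_true, false_and, and_false] at hx hw
      obtain ⟨rfl, rfl⟩ := hx
      rcases hw with hw | hw | hw
      · exact absurd hw h1
      · exact absurd hw h2
      · refine ⟨hm, ?_⟩
        rcases hk with rfl | rfl
        · exact Or.inl hw
        · exact Or.inr hw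
  · rintro ⟨hm, hw⟩
    refine mem_TT.mpr (Or.inr ?_)
    rcases hw with rfl | rfl
    · refine ⟨s, m, m, hm, Or.inl rfl, ?_⟩
      ext x; simp only [cap, mem_insert, mem_singleton]; tauto
    · refine ⟨s, m, m + N, hm, Or.inr rfl, ?_⟩
      ext x; simp only [cap, mem_insert, mem_singleton]; tauto

/-- one edge `{x, y}` with third vertex `v`: a reduction to the list of its faces -/
theorem two_aux {N : ℕ} {t : Finset W} {v x y v' : W} (ht : t = {v, x, y}) (hvx : v ≠ x)
    (hvy : v ≠ y) (hv' : v' ≠ v) (hv'x : v' ≠ x) (hv'y : v' ≠ y)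
    (hin : insert v' {x, y} ∈ TT N)
    (hun : ∀ w, w ≠ v → w ≠ x → w ≠ y → insert w {x, y} ∈ TT N → w = v') :
    ∃ v', v' ∉ t ∧ insert v' (t.erase v) ∈ TT N ∧
      ∀ w, w ∉ t → insert w (t.erase v) ∈ TT N → w = v' := by
  have he : t.erase v = {x, y} := by
    rw [ht]
    exact erase_insert (by simp [hvx, hvy])
  refine ⟨v', ?_, ?_, ?_⟩
  · rw [ht]; simp [hv', hv'x, hv'y]
  · rw [he]; exact hin
  · intro w hw hw'
    rw [he] at hw'
    rw [ht] at hw
    simp only [mem_insert, mem_singleton, not_or] at hw
    exact hun w hw.1 hw.2.1 hw.2.2 hw'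

theorem two_p {N : ℕ} {t : Finset W} {s r : Bool} {i j k : ℕ} (hi : i < N)
    (hj : j < N) (hk : k = i + j ∨ k = i + j + 1)
    (ht : t = {W.p (!s) r j, W.p s r i, W.c k}) :
    ∃ v', v' ∉ t ∧ insert v' (t.erase (W.p (!s) r j)) ∈ TT N ∧
      ∀ w, w ∉ t → insert w (t.erase (W.p (!s) r j)) ∈ TT N → w = v' := by
  have hs : (!s) ≠ s := by cases s <;> decide
  have hr : (!r) ≠ r := by cases r <;> decide
  have hvx : W.p (!s) r j ≠ W.p s r i := by
    intro h; injection h with h; exact hs h
  have hvy : W.p (!s) r j ≠ W.c k := by intro h; injection h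
  rcases hk with hk | hk
  · rcases Nat.eq_zero_or_pos j with h0 | h0
    · -- the cap at `k = i`
      refine two_aux (v' := W.p s (!r) i) ht hvx hvy ?_ ?_ ?_ ?_ ?_
      · intro h; injection h with h; exact hs h.symm
      · intro h; injection h with _ h; exact hr h
      · intro h; injection h
      · refine (ins_pc (by intro h; injection h with _ h; exact hr h)
          (by intro h; injection h)).mpr ⟨hi, Or.inr ⟨Or.inl (by omega), rfl⟩⟩
      · intro w hwv hwx hwy hw
        rcases ((ins_pc hwx hwy).mp hw).2 with ⟨j', hj', hk', rfl⟩ | ⟨-, h⟩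
        · exfalso
          apply hwv
          have : j' = j := by omega
          rw [this]
        · exact h
    · refine two_aux (v' := W.p (!s) r (j - 1)) ht hvx hvy ?_ ?_ ?_ ?_ ?_
      · intro h; injection h with _ _ h; omega
      · intro h; injection h with h; exact hs h
      · intro h; injection h
      · refine (ins_pc (by intro h; injection h with h; exact hs h)
          (by intro h; injection h)).mpr ⟨hi, Or.inl ⟨j - 1, by omega, by omega, rfl⟩⟩
      · intro w hwv hwx hwy hw
        rcases ((ins_pc hwx hwy).mp hw).2 with ⟨j', hj', hk', rfl⟩ | ⟨h, -⟩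
        · have h1 : j' ≠ j := by
            intro h; apply hwv; rw [h]
          have : j' = j - 1 := by omega
          rw [this]
        · exfalso
          omega
  · rcases Nat.lt_or_ge (j + 1) N with h0 | h0
    · refine two_aux (v' := W.p (!s) r (j + 1)) ht hvx hvy ?_ ?_ ?_ ?_ ?_
      · intro h; injection h with _ _ h; omega
      · intro h; injection h with h; exact hs h
      · intro h; injection h
      · refine (ins_pc (by intro h; injection h with h; exact hs h)
          (by intro h; injection h)).mpr ⟨hi, Or.inl ⟨j + 1, h0, by omega, rfl⟩⟩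
      · intro w hwv hwx hwy hw
        rcases ((ins_pc hwx hwy).mp hw).2 with ⟨j', hj', hk', rfl⟩ | ⟨h, -⟩
        · have h1 : j' ≠ j := by
            intro h; apply hwv; rw [h]
          have : j' = j + 1 := by omega
          rw [this]
        · exfalso
          omega
    · refine two_aux (v' := W.p s (!r) i) ht hvx hvy ?_ ?_ ?_ ?_ ?_
      · intro h; injection h with h; exact hs h.symm
      · intro h; injection h with _ h; exact hr h
      · intro h; injection h
      · refine (ins_pc (by intro h; injection h with _ h; exact hr h)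
          (by intro h; injection h)).mpr ⟨hi, Or.inr ⟨Or.inr (by omega), rfl⟩⟩
      · intro w hwv hwx hwy hw
        rcases ((ins_pc hwx hwy).mp hw).2 with ⟨j', hj', hk', rfl⟩ | ⟨-, h⟩
        · exfalso
          apply hwv
          have : j' = j := by omega
          rw [this]
        · exact h

theorem two_m {N : ℕ} (hN : 1 ≤ N) {t : Finset W} {s r : Bool} {m k : ℕ} (hm : m < N)
    (hk : k = m ∨ k = m + N)
    (ht : t = {W.p s (!r) m, W.p s r m, W.c k}) :
    ∃ v', v' ∉ t ∧ insert v' (t.erase (W.p s (!r) m)) ∈ TT N ∧
      ∀ w, w ∉ t → insert w (t.erase (W.p s (!r) m)) ∈ TT N → w = v' := by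
  have hs : (!s) ≠ s := by cases s <;> decide
  have hr : (!r) ≠ r := by cases r <;> decide
  have hvx : W.p s (!r) m ≠ W.p s r m := by
    intro h; injection h with _ h; exact hr h
  have hvy : W.p s (!r) m ≠ W.c k := by intro h; injection h
  rcases hk with hk | hk
  · refine two_aux (v' := W.p (!s) r 0) ht hvx hvy ?_ ?_ ?_ ?_ ?_
    · intro h; injection h with h; exact hs h
    · intro h; injection h with h; exact hs h
    · intro h; injection h
    · refine (ins_pc (by intro h; injection h with h; exact hs h)
        (by intro h; injection h)).mpr ⟨hm, Or.inl ⟨0, by omega, by omega, rfl⟩⟩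
    · intro w hwv hwx hwy hw
      rcases ((ins_pc hwx hwy).mp hw).2 with ⟨j', hj', hk', rfl⟩ | ⟨-, h⟩
      · have : j' = 0 := by omega
        rw [this]
      · exact absurd h hwv
  · refine two_aux (v' := W.p (!s) r (N - 1)) ht hvx hvy ?_ ?_ ?_ ?_ ?_
    · intro h; injection h with h; exact hs h
    · intro h; injection h with h; exact hs h
    · intro h; injection h
    · refine (ins_pc (by intro h; injection h with h; exact hs h)
        (by intro h; injection h)).mpr ⟨hm, Or.inl ⟨N - 1, by omega, by omega, rfl⟩⟩
    · intro w hwv hwx hwy hw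
      rcases ((ins_pc hwx hwy).mp hw).2 with ⟨j', hj', hk', rfl⟩ | ⟨-, h⟩
      · have : j' = N - 1 := by omega
        rw [this]
      · exact absurd h hwv

/-- every edge of the surface lies in exactly two faces -/
theorem two_TT {N : ℕ} (hN : 1 ≤ N) : ∀ t ∈ TT N, ∀ v ∈ t, ∃ v', v' ∉ t ∧
    insert v' (t.erase v) ∈ TT N ∧ ∀ w, w ∉ t → insert w (t.erase v) ∈ TT N → w = v' := by
  intro t ht v hv
  rcases mem_TT.mp ht with ⟨r, i, j, k, hi, hj, hk, rfl⟩ | ⟨s, m, k, hm, hk, rfl⟩
  · simp only [fc, mem_insert, mem_singleton] at hv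
    rcases hv with rfl | rfl | rfl
    · exact two_p (s := true) (r := r) (i := j) (j := i) (k := k) hj hi (by omega) (by simp [fc])
    · refine two_p (s := false) (r := r) (i := i) (j := j) (k := k) hi hj hk ?_
      ext x; simp only [fc, mem_insert, mem_singleton, Bool.not_false]; tauto
    · rcases hk with rfl | rfl
      · refine two_aux (x := W.p false r i) (y := W.p true r j) (v' := W.c (i + j + 1)) ?_
          (by simp) (by simp) (by simp) (by simp) (by simp) ?_ ?_
        · ext x; simp only [fc, mem_insert, mem_singleton]; tauto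
        · exact (ins_pp (by simp) (by simp)).mpr ⟨hi, hj, Or.inr rfl⟩
        · intro w hwv hwx hwy hw
          rcases ((ins_pp hwx hwy).mp hw).2.2 with h | h
          · exact absurd h hwv
          · exact h
      · refine two_aux (x := W.p false r i) (y := W.p true r j) (v' := W.c (i + j)) ?_
          (by simp) (by simp) (by simp) (by simp) (by simp) ?_ ?_
        · ext x; simp only [fc, mem_insert, mem_singleton]; tauto
        · exact (ins_pp (by simp) (by simp)).mpr ⟨hi, hj, Or.inl rfl⟩
        · intro w hwv hwx hwy hw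
          rcases ((ins_pp hwx hwy).mp hw).2.2 with h | h
          · exact h
          · exact absurd h hwv
  · simp only [cap, mem_insert, mem_singleton] at hv
    rcases hv with rfl | rfl | rfl
    · exact two_m hN (s := s) (r := true) (m := m) (k := k) hm hk (by simp [cap])
    · refine two_m hN (s := s) (r := false) (m := m) (k := k) hm hk ?_
      ext x; simp only [cap, mem_insert, mem_singleton, Bool.not_false]; tauto
    · rcases hk with rfl | rfl
      · refine two_aux (x := W.p s false k) (y := W.p s true k) (v' := W.c (k + N)) ?_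
          (by simp) (by simp) (by intro h; injection h; omega) (by simp) (by simp) ?_ ?_
        · ext x; simp only [cap, mem_insert, mem_singleton]; tauto
        · exact (ins_mm (by simp) (by simp)).mpr ⟨hm, Or.inr rfl⟩
        · intro w hwv hwx hwy hw
          rcases ((ins_mm hwx hwy).mp hw).2 with h | h
          · exact absurd h hwv
          · exact h
      · refine two_aux (x := W.p s false m) (y := W.p s true m) (v' := W.c m) ?_
          (by simp) (by simp) (by intro h; injection h; omega) (by simp) (by simp) ?_ ?_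
        · ext x; simp only [cap, mem_insert, mem_singleton]; tauto
        · exact (ins_mm (by simp) (by simp)).mpr ⟨hm, Or.inl rfl⟩
        · intro w hwv hwx hwy hw
          rcases ((ins_mm hwx hwy).mp hw).2 with h | h
          · exact h
          · exact absurd h hwv

end Pool.Agent.Helper65.Quad
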