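import Mathlib
import Pool.Agent.Helper65.Quad.Two
import Pool.Agent.Helper65.Quad.Link
import Pool.Agent.Helper65.Quad.Count
import Pool.Agent.Helper65.Quad.Geom
set_option autoImplicit false

/-!
# The combinatorial surface
-/

namespace Pool.Agent.Helper65.Quad

open Finset Pool.Agent.Helper40.Surf

theorem isComb_TT {N : ℕ} (hN : 1 ≤ N) : IsComb (TT N) where
  nonempty := nonempty_TT hN
  card3 := card3_TT
  two := two_TT hN
  link := link_TT hN
  conn := conn_TT

end Pool.Agent.Helper65.Quad
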