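import Mathlib
import Pool.Agent.Helper65.Quad.Count
set_option autoImplicit false

/-!
# The exact number of faces
-/

namespace Pool.Agent.Helper65.Quad

open Finset Pool.Agent.Helper40.Surf

theorem cap_inj {s s' : Bool} {m k m' k' : ℕ} (h : cap s m k = cap s' m' k') :
    s = s' ∧ m = m' ∧ k = k' := by
  have h1 : W.p s false m ∈ cap s' m' k' := by rw [← h]; simp [cap]
  have h3 : W.c k ∈ cap s' m' k' := by rw [← h]; simp [cap]
  simp [cap] at h1 h3
  exact ⟨h1.1, h1.2, h3⟩

theorem fc_ne_cap {r s : Bool} {i j k m k' : ℕ} : fc r i j k ≠ cap s m k' := by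
  intro h
  have h1 : W.p false r i ∈ cap s m k' := by rw [← h]; simp [fc]
  have h2 : W.p true r j ∈ cap s m k' := by rw [← h]; simp [fc]
  simp [cap] at h1 h2
  rcases h1 with h1 | h1 <;> rcases h2 with h2 | h2 <;> simp_all

/-- the number of faces is at least `4 N ^ 2 + 4 N` -/
theorem card_TT' {N : ℕ} (hN : 1 ≤ N) : 4 * N ^ 2 + 4 * N ≤ (TT N).card := by
  have h1 : (((univ : Finset Bool) ×ˢ range N ×ˢ range N ×ˢ range 2).image
      (fun q => fc q.1 q.2.1 q.2.2.1 (q.2.1 + q.2.2.1 + q.2.2.2))).card = 4 * N ^ 2 := by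
    rw [card_image_of_injective]
    · simp only [card_product, card_univ, Fintype.card_bool, card_range]
      ring
    · rintro ⟨r, i, j, e⟩ ⟨r', i', j', e'⟩ h
      obtain ⟨h1, h2, h3, h4⟩ := fc_inj h
      simp only at h1 h2 h3 h4
      subst h1 h2 h3
      have : e = e' := by omega
      rw [this]
  have h2 : (((univ : Finset Bool) ×ˢ range N ×ˢ range 2).image
      (fun q => cap q.1 q.2.1 (q.2.1 + N * q.2.2))).card = 4 * N := by
    rw [card_image_of_injective]
    · simp only [card_product, card_univ, Fintype.card_bool, card_range]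
      ring
    · rintro ⟨s, m, e⟩ ⟨s', m', e'⟩ h
      obtain ⟨h1, h2, h3⟩ := cap_inj h
      simp only at h1 h2 h3
      subst h1 h2
      have h4 : N * e = N * e' := by omega
      have : e = e' := Nat.eq_of_mul_eq_mul_left (by omega) h4
      rw [this]
  rw [TT, card_union_of_disjoint, h1, h2]
  rw [disjoint_left]
  intro t ht ht'
  obtain ⟨q, -, rfl⟩ := mem_image.1 ht
  obtain ⟨q', -, h⟩ := mem_image.1 ht'
  exact fc_ne_cap h.symm

end Pool.Agent.Helper65.Quad
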